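import Pool.Agent.Lib.H56G.Defs
import Pool.Agent.Lib.H68T.Defs

/-!
# H13C: definitions (chains of large gaps)

Parts: `P` primes and characters (adaptation of H68T), `F` Fourier expansion of the weights of H56G,
`S` coefficients of the partially suppressing weights, `R` Rankin's construction, `Z` conclusion.
-/

open Finset

namespace Pool.Agent.Lib.H13C

open Pool.Agent.Lib.H68T Pool.Agent.Lib.H56G

noncomputable section

/-! ## Part P -/

/-- `Q` is a good level for the characters of conductor not divisible by `p₁`. -/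
def GoodOff (c : ℝ) (Q p₁ : ℕ) : Prop :=
  ∀ (r : ℕ) [NeZero r] (ψ : DirichletCharacter ℂ r), r ≤ Q → ¬ p₁ ∣ r → ψ.IsPrimitive → ψ ≠ 1 →
    ψ ^ 2 = 1 → ∀ σ : ℝ, 1 - c / Real.log Q ≤ σ → σ ≤ 1 → ψ.LFunction (σ : ℂ) ≠ 0

/-- The regime `(log X)^K ≤ R ≤ X^(1/K)`, `X` large. -/
def RegP (K : ℝ) (R X : ℕ) : Prop :=
  K ≤ Real.log (Real.log X) ∧ K * Real.log (Real.log X) ≤ Real.log R ∧
    K * Real.log R ≤ Real.log X

/-- `g(y) = ∫_{-1/4}^{1/4} cos(ty) dt` -/
def gk (y : ℝ) : ℝ := ∫ t in (-(1 / 4 : ℝ))..(1 / 4), Real.cos (t * y)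

/-- The weight of the integer `n`: between `0` and `4`, supported on `[X/e², e⁴X]`, at least
`1/12` on `[X, eX]`. -/
def wX (X n : ℕ) : ℝ := (X : ℝ) / n * v X n * gk (Real.log ((n : ℝ) / X))

/-- The primes which are used. -/
def prX (X : ℕ) : Finset ℕ := (Icc 1 (60 * X)).filter (fun n => n.Prime ∧ wX X n ≠ 0)

/-- The character sums over primes. -/
def SX (X : ℕ) (p : Σ r : ℕ, DirichletCharacter ℂ r) : ℂ :=
  ∑ n ∈ prX X, ((Real.log n * wX X n : ℝ) : ℂ) * p.2 (n : ZMod p.1)

/-! ## Part F -/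

variable {ι J : Type} [Fintype ι] [DecidableEq ι] [Fintype J] [DecidableEq J]

instance factPr (s : Sys ι J) (i : ι) : Fact (s.pr i).Prime := ⟨s.prime i⟩

/-- The form `j` minus the form `j0`, modulo the prime `i`. -/
def sh (s : Sys ι J) (j0 : J) (i : ι) (j : J) : ZMod (s.pr i) :=
  (s.b j : ZMod (s.pr i)) - (s.b j0 : ZMod (s.pr i))

/-- The local factor as a function of the class `x` of `n = b j0 + M t`. -/
def ul (s : Sys ι J) (j0 : J) (i : ι) (a : Option J) (x : ZMod (s.pr i)) : ℝ :=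
  a.elim 1 (fun j => if x + sh s j0 i j = 0 then 1 - (s.pr i : ℝ) else 1)

/-- `U κ` as a function of the integer `n = b j0 + M t`. -/
def Un (s : Sys ι J) (j0 : J) (κ : ι → Option J) (n : ℕ) : ℝ :=
  ∏ i, ul s j0 i (κ i) (n : ZMod (s.pr i))

/-- Local Fourier coefficient (on the units mod `p = pr i`, as `χ 0 = 0`) of `u_a u_a'`. -/
def gh (s : Sys ι J) (j0 : J) (i : ι) (χ : DirichletCharacter ℂ (s.pr i)) (a a' : Option J) : ℂ :=
  (1 / ((s.pr i : ℂ) - 1)) * ∑ x : ZMod (s.pr i),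
    ((ul s j0 i a x * ul s j0 i a' x : ℝ) : ℂ) * (starRingEnd ℂ) (χ x)

/-- The Fourier coefficient of `(∑ c U)²` at the tuple `χ`. -/
def Bh (s : Sys ι J) (j0 : J) (c : (ι → Option J) → ℝ)
    (χ : ∀ i, DirichletCharacter ℂ (s.pr i)) : ℂ :=
  ∑ κ, ∑ κ', (c κ : ℂ) * (c κ' : ℂ) * ∏ i, gh s j0 i (χ i) (κ i) (κ' i)

/-- The character `χM ∏ χ_i` as a function of `n`. -/
def chS (s : Sys ι J) (χM : DirichletCharacter ℂ s.M) (χ : ∀ i, DirichletCharacter ℂ (s.pr i))
    (n : ℕ) : ℂ := χM (n : ZMod s.M) * ∏ i, χ i (n : ZMod (s.pr i))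

/-- The primes at which `χ` is not trivial. -/
def TT (s : Sys ι J) (χ : ∀ i, DirichletCharacter ℂ (s.pr i)) : Finset ι :=
  open Classical in univ.filter (fun i => χ i ≠ 1)

/-- The normalising factor: `1` if the prime is not used, `p - 1` otherwise. -/
def phO (s : Sys ι J) (i : ι) (a : Option J) : ℝ := if a = none then 1 else (s.pr i : ℝ) - 1

/-- Row sum bound at a prime where the character is trivial. -/
def R1 (s : Sys ι J) (i : ι) (a : Option J) : ℝ :=
  if a = none then 1 + Fintype.card J / ((s.pr i : ℝ) - 1) ^ (3 / 2 : ℝ)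
  else 1 + (2 * Fintype.card J + 2) / ((s.pr i : ℝ) - 1)

/-- Row sum bound at a prime where the character is not trivial. -/
def R2 (s : Sys ι J) (i : ι) (a : Option J) : ℝ :=
  if a = none then 2 * Fintype.card J / Real.sqrt ((s.pr i : ℝ) - 1) else 3

/-- `U` in terms of the pattern `o` (`o i = some j`: the prime `i` divides the form `j`). -/
def valO (s : Sys ι J) (i : ι) (a o : Option J) : ℝ :=
  a.elim 1 (fun j => if o = some j then 1 - (s.pr i : ℝ) else 1)

/-- Pattern weights of the units mod `p` (the form `j0` is not divisible by `p`). -/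
def wu (s : Sys ι J) (j0 : J) (i : ι) (o : Option J) : ℝ :=
  o.elim (((s.pr i : ℝ) - Fintype.card J) / ((s.pr i : ℝ) - 1))
    (fun j => if j = j0 then 0 else 1 / ((s.pr i : ℝ) - 1))

/-- Pattern weights of all the classes mod `p`, the pattern `some j0` being counted as `none`. -/
def wa (s : Sys ι J) (j0 : J) (i : ι) (o : Option J) : ℝ :=
  o.elim (((s.pr i : ℝ) - Fintype.card J + 1) / (s.pr i : ℝ))
    (fun j => if j = j0 then 0 else 1 / (s.pr i : ℝ))

/-! ## Part S -/

/-- The partially suppressing one form weights, `∑ bt = θ`. -/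
def bt (s : Sys ι J) (z θ : ℝ) (A : Finset ι) : ℝ := θ * bw s z A

/-! ## Part Z -/

/-- `F x = log x (loglog x)² loglogloglog x / (logloglog x)²` -/
def FF4 (x : ℝ) : ℝ :=
  Real.log x * (Real.log (Real.log x)) ^ 2 *
    Real.log (Real.log (Real.log (Real.log x))) / (Real.log (Real.log (Real.log x))) ^ 2

end

end Pool.Agent.Lib.H13C
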