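import Pool.Agent.Lib.H13C.Defs

/-!
# Chunk F0: `U κ t` as a function of `n = b j0 + M t`
-/

open Finset

namespace Pool.Agent.Lib.H13C

open Pool.Agent.Lib.H68T Pool.Agent.Lib.H56G

variable {ι J : Type} [Fintype ι] [DecidableEq ι] [Fintype J] [DecidableEq J]

/-- `pr i ∣ b j + M t` iff `(b j0 + M t) + (b j - b j0) = 0` in `ZMod (pr i)`
(`ZMod.natCast_eq_zero_iff`). -/
theorem U_eq_Un (s : Sys ι J) (j0 : J) (κ : ι → Option J) (t : ℕ) :
    s.U κ t = Un s j0 κ (s.b j0 + s.M * t) := by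
  sorry

/-- The shift of `j0` is `0`, and the shifts of different forms are different (`s.dist`). -/
theorem sh_self (s : Sys ι J) (j0 : J) (i : ι) : sh s j0 i j0 = 0 := by
  sorry

theorem sh_inj (s : Sys ι J) (j0 : J) (i : ι) : Function.Injective (sh s j0 i) := by
  sorry

end Pool.Agent.Lib.H13C
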