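import Pool.Agent.Lib.H13C.F0

/-!
# Chunk F1a: the local coefficients in terms of patterns (trivial character)
-/

open Finset

namespace Pool.Agent.Lib.H13C

open Pool.Agent.Lib.H68T Pool.Agent.Lib.H56G

variable {ι J : Type} [Fintype ι] [DecidableEq ι] [Fintype J] [DecidableEq J]

/-- `p = pr i`, `K = |J|`. The nonzero classes `x` mod `p` are: for each `j ≠ j0` the class
`x = - sh j` (nonzero and different for different `j`: `sh_inj`, `sh_self`), where
`ul a x = valO a (some j)`; and `p - K` further classes, where `ul a x = valO a none = 1`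
(in particular `K ≤ p`). At `x = 0` the factor `conj ((1 : DirichletCharacter) 0)` is `0`, at a
nonzero `x` it is `1`. The hypothesis `a ≠ some j0` is needed because the pattern `some j0`
(weight `0` in `wu`) never occurs. -/
theorem gh_one (s : Sys ι J) (j0 : J) (i : ι) (a a' : Option J) (ha : a ≠ some j0)
    (ha' : a' ≠ some j0) :
    gh s j0 i 1 a a' = ((∑ o : Option J, wu s j0 i o * (valO s i a o * valO s i a' o) : ℝ) : ℂ) := by
  sorry

/-- The same for the Gram matrix of H56G: with `K = |J|`, for `a, a'` among `none`, `some j`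
(`j ≠ j0`): `∑ wa = (K - 1)/p + (p - K + 1)/p = 1` (`none, none`);
`1 - p · (1/p) = 0` (`none, some j`); `(1-p)²/p + (p-1)/p = p - 1` (`j = j'`);
`2 (1-p)/p + (p-2)/p = -1` (`j ≠ j'`). -/
theorem gram_eq_wa (s : Sys ι J) (j0 : J) (i : ι) (a a' : Option J) (ha : a ≠ some j0)
    (ha' : a' ≠ some j0) :
    s.gram i a a' = ∑ o : Option J, wa s j0 i o * (valO s i a o * valO s i a' o) := by
  sorry

end Pool.Agent.Lib.H13C
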