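import Pool.Agent.Lib.H13C.F1a

/-!
# Chunk F1b: the local coefficients of the nontrivial characters
-/

open Finset

namespace Pool.Agent.Lib.H13C

open Pool.Agent.Lib.H68T Pool.Agent.Lib.H56G

variable {ι J : Type} [Fintype ι] [DecidableEq ι] [Fintype J] [DecidableEq J]

theorem gh_symm (s : Sys ι J) (j0 : J) (i : ι) (χ : DirichletCharacter ℂ (s.pr i))
    (a a' : Option J) : gh s j0 i χ a a' = gh s j0 i χ a' a := by
  sorry

/-- `∑_x conj χ(x) = 0` for `χ ≠ 1` (`MulChar.sum_eq_zero_of_ne_one`, applied to `χ⁻¹` or after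
conjugation), so `ul_a ul_a'` may be replaced by `ul_a ul_a' - 1`, which vanishes for
`a = a' = none`. -/
theorem gh_none_none (s : Sys ι J) (j0 : J) (i : ι) (χ : DirichletCharacter ℂ (s.pr i))
    (hχ : χ ≠ 1) : gh s j0 i χ none none = 0 := by
  sorry

/-- `ul_none ul_j - 1 = -p` at `x = - sh j` and `0` elsewhere; `|conj χ| ≤ 1`. -/
theorem gh_none_some (s : Sys ι J) (j0 : J) (i : ι) (χ : DirichletCharacter ℂ (s.pr i))
    (hχ : χ ≠ 1) (j : J) :
    ‖gh s j0 i χ none (some j)‖ ≤ (s.pr i : ℝ) / ((s.pr i : ℝ) - 1) := by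
  sorry

/-- `ul_j² - 1 = (1-p)² - 1 = p (p - 2)` at `x = - sh j` and `0` elsewhere;
`p (p - 2)/(p - 1) ≤ p - 1`. -/
theorem gh_some_self (s : Sys ι J) (j0 : J) (i : ι) (χ : DirichletCharacter ℂ (s.pr i))
    (hχ : χ ≠ 1) (j : J) :
    ‖gh s j0 i χ (some j) (some j)‖ ≤ (s.pr i : ℝ) - 1 := by
  sorry

/-- `ul_j ul_j' - 1 = -p` at the two classes `- sh j`, `- sh j'` and `0` elsewhere. -/
theorem gh_some_some (s : Sys ι J) (j0 : J) (i : ι) (χ : DirichletCharacter ℂ (s.pr i))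
    (hχ : χ ≠ 1) (j j' : J) (hj : j ≠ j') :
    ‖gh s j0 i χ (some j) (some j')‖ ≤ 2 * (s.pr i : ℝ) / ((s.pr i : ℝ) - 1) := by
  sorry

end Pool.Agent.Lib.H13C
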