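import Pool.Agent.Lib.H13C.F1b

/-!
# Chunk F1c: row sums
-/

open Finset

namespace Pool.Agent.Lib.H13C

open Pool.Agent.Lib.H68T Pool.Agent.Lib.H56G

variable {ι J : Type} [Fintype ι] [DecidableEq ι] [Fintype J] [DecidableEq J]

/-- `p = pr i ≥ 8`, `K = |J| ≤ p/4 - 1`; the `a' ≠ some j0` are `none` and `K - 1` forms.
Trivial character (`gh_one`: the entries are `1`, `-1/(p-1)`, `(p-1) + (p-2)/(p-1)`,
`-(p+1)/(p-1)` for `(none, none)`, `(none, j)`, `(j, j)`, `(j, j')`):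
row `none`: `1 + (K-1) (p-1)^(-3/2)`;
row `j`: `(p-1)^(-3/2) + 1 + (p-2)/(p-1)² + (K-2) (p+1)/(p-1)² ≤ 1 + (2K+2)/(p-1)`. -/
theorem row_one (s : Sys ι J) (j0 : J) (i : ι) (a : Option J) (ha : a ≠ some j0)
    (hp : 4 * (Fintype.card J + 1) ≤ s.pr i) :
    ∑ a' ∈ (univ : Finset (Option J)).erase (some j0),
      ‖gh s j0 i 1 a a'‖ / Real.sqrt (phO s i a * phO s i a') ≤ R1 s i a := by
  sorry

/-- Nontrivial character (`gh_none_none`, `gh_none_some`, `gh_some_self`, `gh_some_some`):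
row `none`: `(K-1) p (p-1)^(-3/2) ≤ 2 K/√(p-1)`;
row `j`: `p (p-1)^(-3/2) + 1 + (K-2) 2p/(p-1)² ≤ 1 + 1 + 1`. -/
theorem row_ne (s : Sys ι J) (j0 : J) (i : ι) (χ : DirichletCharacter ℂ (s.pr i)) (hχ : χ ≠ 1)
    (a : Option J) (ha : a ≠ some j0) (hp : 4 * (Fintype.card J + 1) ≤ s.pr i) :
    ∑ a' ∈ (univ : Finset (Option J)).erase (some j0),
      ‖gh s j0 i χ a a'‖ / Real.sqrt (phO s i a * phO s i a') ≤ R2 s i a := by
  sorry

end Pool.Agent.Lib.H13C
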