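import Pool.Agent.Lib.H13C.F1c

/-!
# Chunk F2: Schur's test
-/

open Finset

namespace Pool.Agent.Lib.H13C

open Pool.Agent.Lib.H68T Pool.Agent.Lib.H56G

variable {ι J : Type} [Fintype ι] [DecidableEq ι] [Fintype J] [DecidableEq J]

open scoped Classical in
/-- Write `φ_κ = ph κ = ∏_i phO i (κ i) > 0`, `G κ κ' = ∏_i ‖gh i (χ i) (κ i) (κ' i)‖`. Then
`‖Bh‖ ≤ ∑ |c κ| |c κ'| G κ κ' ≤ ∑_{κ,κ'} (c κ² φ_κ + c κ'² φ_κ')/2 · G κ κ'/√(φ_κ φ_κ')`, both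
sums over the configurations not using `j0`. By symmetry (`gh_symm`) this is
`∑_κ c κ² φ_κ ∑_{κ' not using j0} ∏_i ‖gh‖/√(phO phO)`, and the inner sum is the product over `i`
of the row sums (`Finset.prod_univ_sum`, `Fintype.piFinset` with the sets `univ.erase (some j0)`). -/
theorem Bh_le (s : Sys ι J) (j0 : J) (c : (ι → Option J) → ℝ)
    (hc : ∀ κ, c κ ≠ 0 → κ ∈ noJ j0) (hp : ∀ i, 4 * (Fintype.card J + 1) ≤ s.pr i)
    (χ : ∀ i, DirichletCharacter ℂ (s.pr i)) :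
    ‖Bh s j0 c χ‖ ≤ ∑ κ, (c κ) ^ 2 * s.ph κ *
      ∏ i, (if χ i = 1 then R1 s i (κ i) else R2 s i (κ i)) := by
  sorry

end Pool.Agent.Lib.H13C
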