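import Pool.Agent.Lib.H13C.Defs
import Pool.Agent.Lib.H56G.Cnt

/-!
# Chunk F2b: the product of the trivial row sums is at most `2`
-/

open Finset

namespace Pool.Agent.Lib.H13C

open Pool.Agent.Lib.H68T Pool.Agent.Lib.H56G

variable {ι J : Type} [Fintype ι] [DecidableEq ι] [Fintype J] [DecidableEq J]

/-- `∑_i (p_i - 1)^(-3/2) ≤ ∑_{m ≥ W} m^(-3/2) ≤ 3/√W` (the `p_i - 1 ≥ W` are distinct integers;
compare `m^(-3/2)` with `3 (1/√m - 1/√(m+1))`, valid for `m ≥ 1`). -/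
theorem sum_rpow_le (s : Sys ι J) (W : ℕ) (hW : 1 ≤ W) (hpr : ∀ i, W < s.pr i) :
    ∑ i, 1 / ((s.pr i : ℝ) - 1) ^ (3 / 2 : ℝ) ≤ 3 / Real.sqrt W := by
  sorry

/-- `R1 none ≤ exp (K/(p-1)^(3/2))`, `R1 some ≤ exp ((2K+2)/(p-1)) ≤ exp ((2K+2)/W)`; the total
exponent is at most `3 K/√W + (2K+2) |supp κ|/W ≤ 3/10 + (2K+2) 2 log D/W ≤ 3/10 + 1/4` by
`sum_rpow_le`, `card_supp_le`, `√W ≥ 10 (K+1)`; `exp 0.55 ≤ 2`. (For `i ∈ T` nothing is claimed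
about `R1`; all `R1 ≥ 1`, `R2 ≥ 0`, `K = |J|`.) -/
theorem prod_R_le (s : Sys ι J) (W : ℕ) (hW : 1 ≤ W) (hpr : ∀ i, W < s.pr i)
    (hK : 100 * (Fintype.card J + 1) ^ 2 ≤ W) (κ : ι → Option J) (D : ℝ) (hD : s.r κ ≤ D)
    (hlog : 16 * (Fintype.card J + 1) * Real.log D ≤ W) (T : Finset ι) :
    ∏ i, (if i ∉ T then R1 s i (κ i) else R2 s i (κ i)) ≤ 2 * ∏ i ∈ T, R2 s i (κ i) := by
  sorry

end Pool.Agent.Lib.H13C
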