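import Pool.Agent.Lib.H13C.Defs
import Pool.Agent.Lib.H56G.Wgt2
import Pool.Agent.Lib.H56G.Coef1

/-!
# Chunk F3a: removing one prime from a configuration
-/

open Finset

namespace Pool.Agent.Lib.H13C

open Pool.Agent.Lib.H68T Pool.Agent.Lib.H56G

variable {ι J : Type} [Fintype ι] [DecidableEq ι] [Fintype J] [DecidableEq J]

/-- `wt κ = ∏_j vv (part κ j)`; only the part of `j` changes, from `A = part κ j` (`i ∉ A`) to
`insert i A`. `vv bb A = bb(A)² φ(A)` for `A ≠ ∅`, `vv ∅ = 1`, `φ(insert i A) = (p-1) φ(A)`.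
If `A ≠ ∅`: `bw (insert i A)` is `0` or `1/(S (p-1) φ(A) log (p ρ(A))) ≤ bw A/(p-1)` (and then
`ρ(A) ≤ z`), so `vv (insert i A) ≤ vv A/(p-1)`. If `A = ∅`:
`vv {i} ≤ θ² (p-1)/(S (p-1) log p)² ≤ 1/(p-1)` since `S log p ≥ 1`. -/
theorem wt_update_le (s : Sys ι J) (z θ : ℝ) (hθ0 : 0 ≤ θ) (hθ1 : θ ≤ 1) (hS : 0 < SS s z)
    (i : ι) (hSp : 1 ≤ SS s z * Real.log (s.pr i)) (κ : ι → Option J) (hκ : κ i = none) (j : J) :
    wt s (bt s z θ) (Function.update κ i (some j)) ≤ wt s (bt s z θ) κ / ((s.pr i : ℝ) - 1) := by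
  sorry

end Pool.Agent.Lib.H13C
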