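import Pool.Agent.Lib.H13C.F3a

/-!
# Chunk F3b: the mass of the configurations using given primes
-/

open Finset

namespace Pool.Agent.Lib.H13C

open Pool.Agent.Lib.H68T Pool.Agent.Lib.H56G

variable {ι J : Type} [Fintype ι] [DecidableEq ι] [Fintype J] [DecidableEq J]

/-- Induction on `T`. For `i ∉ T'` and a function `f κ = ∏_{l ∈ T'} R2 l (κ l)`, which does not
depend on `κ i`:
`∑_κ wt κ f κ R2 i (κ i) = R2 i none ∑_{κ i = none} wt f + 3 ∑_j ∑_{κ i = none} wt (κ with i to j) f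
≤ (R2 i none + 3 |J|/(p_i - 1)) ∑_{κ i = none} wt f` (`wt_update_le`), and
`∑_{κ i = none} wt f ≤ ∑_κ wt f`. -/
theorem mass_le (s : Sys ι J) (z θ : ℝ) (hθ0 : 0 ≤ θ) (hθ1 : θ ≤ 1) (hS : 0 < SS s z)
    (hSp : ∀ i, 1 ≤ SS s z * Real.log (s.pr i)) (T : Finset ι) :
    ∑ κ, wt s (bt s z θ) κ * ∏ i ∈ T, R2 s i (κ i) ≤
      (∏ i ∈ T, (R2 s i none + 3 * Fintype.card J / ((s.pr i : ℝ) - 1))) *
        ZZ s (bt s z θ) := by
  sorry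

/-- `2K/√(p-1) + 3K/(p-1) ≤ 5K/√(p-1)` and `25 K² ≤ (p-1)/√p` because `√p ≥ 50 (K+1)²`, so
`5K/√(p-1) ≤ p^(-1/4)`. -/
theorem R2_small (s : Sys ι J) (i : ι) (hp : 2500 * (Fintype.card J + 1) ^ 4 ≤ s.pr i) :
    R2 s i none + 3 * Fintype.card J / ((s.pr i : ℝ) - 1) ≤ (s.pr i : ℝ) ^ (-(1 / 4 : ℝ)) := by
  sorry

end Pool.Agent.Lib.H13C
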