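import Pool.Agent.Lib.H13C.F2
import Pool.Agent.Lib.H13C.F2b
import Pool.Agent.Lib.H13C.F3b

/-!
# Chunk F4: bound for the Fourier coefficients of the weight
-/

open Finset

namespace Pool.Agent.Lib.H13C

open Pool.Agent.Lib.H68T Pool.Agent.Lib.H56G

variable {ι J : Type} [Fintype ι] [DecidableEq ι] [Fintype J] [DecidableEq J]

/-- If `c κ c κ' ≠ 0` and the product of the coefficients is not `0`, every `i ∈ TT χ` is used by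
`κ` or by `κ'` (`gh_none_none`), so `∏_{TT} p_i ≤ r κ r κ' ≤ D²`. -/
theorem Bh_eq_zero (s : Sys ι J) (j0 : J) (c : (ι → Option J) → ℝ) (D : ℝ)
    (hcD : ∀ κ, c κ ≠ 0 → s.r κ ≤ D) (χ : ∀ i, DirichletCharacter ℂ (s.pr i))
    (hT : D ^ 2 < ∏ i ∈ TT s χ, (s.pr i : ℝ)) : Bh s j0 c χ = 0 := by
  sorry

/-- `Bh_le`, `prod_R_le` (with `T = TT s χ`; for the `κ` with `c κ ≠ 0`), `c² ph ≤ wt`, `mass_le`,
`R2_small`. -/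
theorem Bh_bound (s : Sys ι J) (W : ℕ) (hW : 2500 * (Fintype.card J + 1) ^ 4 ≤ W)
    (hpr : ∀ i, W < s.pr i) (z θ : ℝ) (hθ0 : 0 ≤ θ) (hθ1 : θ ≤ 1) (hS : 0 < SS s z)
    (hSp : ∀ i, 1 ≤ SS s z * Real.log (s.pr i)) (j0 : J) (c : (ι → Option J) → ℝ) (D : ℝ)
    (hD : 1 ≤ D) (hlog : 16 * (Fintype.card J + 1) * Real.log D ≤ W)
    (hc : ∀ κ, c κ ≠ 0 → κ ∈ noJ j0) (hcD : ∀ κ, c κ ≠ 0 → s.r κ ≤ D)
    (hcw : ∀ κ, (c κ) ^ 2 * s.ph κ ≤ wt s (bt s z θ) κ)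
    (χ : ∀ i, DirichletCharacter ℂ (s.pr i)) :
    ‖Bh s j0 c χ‖ ≤ 2 * ZZ s (bt s z θ) * ∏ i ∈ TT s χ, (s.pr i : ℝ) ^ (-(1 / 4 : ℝ)) := by
  sorry

end Pool.Agent.Lib.H13C
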