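import Pool.Agent.Lib.H13C.F1a
import Pool.Agent.Lib.H56G.Schur3
import Pool.Agent.Lib.H56G.Cnt

/-!
# Chunk F5: the main term
-/

open Finset

namespace Pool.Agent.Lib.H13C

open Pool.Agent.Lib.H68T Pool.Agent.Lib.H56G

variable {ι J : Type} [Fintype ι] [DecidableEq ι] [Fintype J] [DecidableEq J]

/-- `0 ≤ (1 - 2K/p²) wa o ≤ wu o` (`K = |J|`, `p ≥ 4 (K+1)`): for `o = some j` compare `1/p` and
`1/(p-1)`; for `o = none`: `(p-K)/(p-1) = (1 - (K-1)/((p-1)(p-K+1))) (p-K+1)/p` and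
`(K-1)/((p-1)(p-K+1)) ≤ 2K/p²`. -/
theorem wu_ge (s : Sys ι J) (j0 : J) (i : ι) (o : Option J)
    (hp : 4 * (Fintype.card J + 1) ≤ s.pr i) :
    0 ≤ wa s j0 i o ∧ 0 ≤ 1 - 2 * Fintype.card J / (s.pr i : ℝ) ^ 2 ∧
      (1 - 2 * Fintype.card J / (s.pr i : ℝ) ^ 2) * wa s j0 i o ≤ wu s j0 i o := by
  sorry

/-- By `gh_one` and `Finset.prod_univ_sum`,
`Bh 1 = ∑_{π : ι → Option J} ∏_i wu i (π i) · (∑_κ c κ ∏_i valO i (κ i) (π i))²` is real (only the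
`κ` not using `j0` matter), and by `gram_eq_wa` the same sum with `wa` is
`∑ c c' ∏ gram ≥ ∑ c² (2 ph - ps)` (`sch3_quad`). The squares are nonnegative, so by `wu_ge`
`Bh 1 ≥ ∏_i (1 - 2K/p_i²) · (sum with wa)`, and `∏ (1 - 2K/p_i²) ≥ 1 - 2K ∑ p_i^(-2) ≥ 1 - 2K/W`
(`cnt_sum_inv_sq`). -/
theorem Bh_one_ge (s : Sys ι J) (W : ℕ) (hW : 1 ≤ W) (hWK : 4 * (Fintype.card J + 1) ≤ W)
    (hpr : ∀ i, W < s.pr i) (j0 : J) (c : (ι → Option J) → ℝ)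
    (hc : ∀ κ, c κ ≠ 0 → κ ∈ noJ j0) (h0 : 0 ≤ ∑ κ, (c κ) ^ 2 * (2 * s.ph κ - s.ps κ)) :
    (1 - 2 * Fintype.card J / (W : ℝ)) * ∑ κ, (c κ) ^ 2 * (2 * s.ph κ - s.ps κ) ≤
      (Bh s j0 c 1).re := by
  sorry

end Pool.Agent.Lib.H13C
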