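import Pool.Agent.Lib.H13C.Defs

/-!
# Chunk F6: tuples of characters and primitive characters
-/

open Finset

namespace Pool.Agent.Lib.H13C

open Pool.Agent.Lib.H68T Pool.Agent.Lib.H56G

variable {ι J : Type} [Fintype ι] [DecidableEq ι] [Fintype J] [DecidableEq J]

/-- The modulus of a tuple. -/
noncomputable def f6_q (s : Sys ι J) (χ : ∀ i, DirichletCharacter ℂ (s.pr i)) : ℕ :=
  s.M * ∏ i ∈ TT s χ, s.pr i

theorem f6_dvd (s : Sys ι J) (χ : ∀ i, DirichletCharacter ℂ (s.pr i)) (i : ι)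
    (hi : i ∈ TT s χ) : s.pr i ∣ f6_q s χ :=
  (dvd_prod_of_mem _ hi).trans (dvd_mul_left _ _)

theorem f6_dvdM (s : Sys ι J) (χ : ∀ i, DirichletCharacter ℂ (s.pr i)) : s.M ∣ f6_q s χ :=
  dvd_mul_right s.M _

open scoped Classical in
/-- The character of a tuple. -/
noncomputable def f6_om (s : Sys ι J) (χM : DirichletCharacter ℂ s.M)
    (χ : ∀ i, DirichletCharacter ℂ (s.pr i)) : DirichletCharacter ℂ (f6_q s χ) :=
  DirichletCharacter.changeLevel (f6_dvdM s χ) χM *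
    ∏ i, (if h : i ∈ TT s χ then DirichletCharacter.changeLevel (f6_dvd s χ i h) (χ i) else 1)

theorem f6_q_pos (s : Sys ι J) (hM : 0 < s.M) (χ : ∀ i, DirichletCharacter ℂ (s.pr i)) :
    0 < f6_q s χ :=
  Nat.mul_pos hM (prod_pos fun i _ => (s.prime i).pos)

theorem f6_prod_apply {n : ℕ} {α : Type} (A : Finset α) (f : α → DirichletCharacter ℂ n)
    (x : ZMod n) (hx : IsUnit x) : (∏ i ∈ A, f i) x = ∏ i ∈ A, f i x := by
  classical
  induction A using Finset.induction_on with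
  | empty => rw [prod_empty, prod_empty, MulChar.one_apply hx]
  | insert a A ha ih => rw [prod_insert ha, prod_insert ha, MulChar.mul_apply, ih]

theorem f6_one_apply {n : ℕ} (m : ℕ) (h : Nat.Coprime m n) :
    (1 : DirichletCharacter ℂ n) (m : ZMod n) = 1 :=
  MulChar.one_apply ((ZMod.isUnit_iff_coprime m n).2 h)

theorem f6_change {n m : ℕ} (h : n ∣ m) (χ : DirichletCharacter ℂ n) (a : ℕ)
    (ha : Nat.Coprime a m) : DirichletCharacter.changeLevel h χ (a : ZMod m) = χ (a : ZMod n) := by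
  have h1 := DirichletCharacter.changeLevel_eq_cast_of_dvd' χ h (a := (a : ℤ))
    (Nat.isCoprime_iff_coprime.2 ha)
  simpa using h1

theorem f6_om_apply (s : Sys ι J) (χM : DirichletCharacter ℂ s.M)
    (χ : ∀ i, DirichletCharacter ℂ (s.pr i)) (n : ℕ) (hn : Nat.Coprime n s.M)
    (hni : ∀ i, ¬ s.pr i ∣ n) :
    Nat.Coprime n (f6_q s χ) ∧ f6_om s χM χ (n : ZMod (f6_q s χ)) = chS s χM χ n := by
  classical
  have hcop : ∀ i, Nat.Coprime n (s.pr i) := fun i =>
    Nat.Coprime.symm (((s.prime i).coprime_iff_not_dvd).2 (hni i))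
  have hq : Nat.Coprime n (f6_q s χ) :=
    Nat.Coprime.mul_right hn (Nat.Coprime.prod_right fun i _ => hcop i)
  refine ⟨hq, ?_⟩
  unfold f6_om chS
  rw [MulChar.mul_apply, f6_prod_apply _ _ _ ((ZMod.isUnit_iff_coprime _ _).2 hq),
    f6_change _ _ _ hq]
  congr 1
  refine prod_congr rfl fun i _ => ?_
  by_cases h : i ∈ TT s χ
  · rw [dif_pos h, f6_change _ _ _ hq]
  · rw [dif_neg h, f6_one_apply _ hq]
    have h1 : χ i = 1 := by
      by_contra h2
      exact h (by unfold TT; simpa using h2)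
    rw [h1, f6_one_apply _ (hcop i)]

theorem f6_ev {p p' : Σ r : ℕ, DirichletCharacter ℂ r} (h : p = p') (n : ℕ) :
    p.2 (n : ZMod p.1) = p'.2 (n : ZMod p'.1) := by
  subst h
  rfl

theorem f6_p0 (p : Σ r : ℕ, DirichletCharacter ℂ r) (h : p.1 = 1) : p = p0 := by
  obtain ⟨r, χ⟩ := p
  simp only at h
  subst h
  unfold p0
  rw [DirichletCharacter.level_one χ]

theorem f6_ofnat {n : ℕ} (χ : DirichletCharacter ℂ n) {a b : ℕ} (h : a ≡ b [MOD n]) :
    χ (a : ZMod n) = χ (b : ZMod n) := by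
  rw [(ZMod.natCast_eq_natCast_iff a b n).2 h]

theorem f6_unit {n : ℕ} [NeZero n] (a : (ZMod n)ˣ) : ∃ m : ℕ, Nat.Coprime m n ∧
    ((m : ℕ) : ZMod n) = a := by
  refine ⟨(a : ZMod n).val, ZMod.val_coe_unit_coprime a, ?_⟩
  exact ZMod.natCast_zmod_val _

theorem f6_inj (s : Sys ι J) (hM : 0 < s.M) (χM χM' : DirichletCharacter ℂ s.M)
    (χ χ' : ∀ i, DirichletCharacter ℂ (s.pr i))
    (h : ∀ n : ℕ, Nat.Coprime n s.M → (∀ i, ¬ s.pr i ∣ n) → chS s χM χ n = chS s χM' χ' n) :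
    χM = χM' ∧ χ = χ' := by
  classical
  have hcopM : ∀ i, Nat.Coprime (s.pr i) s.M := fun i =>
    ((s.prime i).coprime_iff_not_dvd).2 (s.copM i)
  have hcop : ∀ i l, i ≠ l → Nat.Coprime (s.pr i) (s.pr l) := fun i l hil =>
    (Nat.coprime_primes (s.prime i) (s.prime l)).2 fun h1 => hil (s.inj h1)
  have hone : ∀ {n : ℕ} (θ : DirichletCharacter ℂ n) (m : ℕ), m ≡ 1 [MOD n] →
      θ (m : ZMod n) = 1 := by
    intro n θ m hm
    rw [f6_ofnat θ hm]
    simp
  have hnd1 : ∀ i m, m ≡ 1 [MOD s.pr i] → ¬ s.pr i ∣ m := by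
    intro i m hm hd
    have h1 : s.pr i ∣ 1 := (hm.dvd_iff dvd_rfl).1 hd
    exact (s.prime i).one_lt.ne' (Nat.dvd_one.1 h1)
  constructor
  · have : NeZero s.M := ⟨hM.ne'⟩
    refine MulChar.ext fun a => ?_
    obtain ⟨m, hm, hma⟩ := f6_unit a
    have hc : Nat.Coprime s.M (∏ i, s.pr i) := Nat.Coprime.prod_right fun i _ => (hcopM i).symm
    obtain ⟨n, hn1, hn2⟩ := Nat.chineseRemainder hc m 1
    have hn2' : ∀ i, n ≡ 1 [MOD s.pr i] := fun i =>
      hn2.of_dvd (dvd_prod_of_mem _ (mem_univ i))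
    have h3 := h n (by
      have h4 : Nat.gcd n s.M = Nat.gcd m s.M := hn1.gcd_eq
      unfold Nat.Coprime
      rw [h4]
      exact hm) (fun i => hnd1 i n (hn2' i))
    unfold chS at h3
    rw [prod_congr rfl fun i _ => hone (χ i) n (hn2' i),
      prod_congr rfl fun i _ => hone (χ' i) n (hn2' i), prod_const_one, mul_one, mul_one,
      f6_ofnat χM hn1, f6_ofnat χM' hn1, hma] at h3
    exact h3
  · funext i
    have : NeZero (s.pr i) := ⟨(s.prime i).ne_zero⟩
    refine MulChar.ext fun a => ?_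
    obtain ⟨m, hm, hma⟩ := f6_unit a
    have hc : Nat.Coprime (s.pr i) (s.M * ∏ l ∈ univ.erase i, s.pr l) :=
      Nat.Coprime.mul_right (hcopM i) (Nat.Coprime.prod_right fun l hl =>
        hcop i l (ne_of_mem_erase hl).symm)
    obtain ⟨n, hn1, hn2⟩ := Nat.chineseRemainder hc m 1
    have hnM : n ≡ 1 [MOD s.M] := hn2.of_dvd (dvd_mul_right _ _)
    have hn2' : ∀ l, l ≠ i → n ≡ 1 [MOD s.pr l] := fun l hl =>
      hn2.of_dvd ((dvd_prod_of_mem _ (mem_erase.2 ⟨hl, mem_univ l⟩)).trans (dvd_mul_left _ _))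
    have h3 := h n (by
      have h4 : Nat.gcd n s.M = Nat.gcd 1 s.M := hnM.gcd_eq
      unfold Nat.Coprime
      rw [h4, Nat.gcd_one_left]) (fun l => by
        by_cases hl : l = i
        · subst hl
          intro hd
          have h5 : s.pr l ∣ m := (hn1.dvd_iff dvd_rfl).1 hd
          have h6 := Nat.Coprime.eq_one_of_dvd (hm.symm) h5
          exact (s.prime l).one_lt.ne' h6
        · exact hnd1 l n (hn2' l hl))
    unfold chS at h3
    rw [← mul_prod_erase univ _ (mem_univ i), ← mul_prod_erase univ _ (mem_univ i),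
      prod_congr rfl fun l hl => hone (χ l) n (hn2' l (ne_of_mem_erase hl)),
      prod_congr rfl fun l hl => hone (χ' l) n (hn2' l (ne_of_mem_erase hl)), prod_const_one,
      mul_one, mul_one, hone χM n hnM, hone χM' n hnM, one_mul, one_mul,
      f6_ofnat (χ i) hn1, f6_ofnat (χ' i) hn1, hma] at h3
    exact h3

/-- For a tuple `τ = (χM, (χ_i))` let `q = M ∏_{i ∈ TT} p_i` and let `ω` be the character
`χM ∏_{i ∈ TT} χ_i` mod `q` (`DirichletCharacter.changeLevel`); `Φ τ = ⟨ω.conductor,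
ω.primitiveCharacter⟩`. Its conductor divides `q`. For `n` coprime to `M` and to all `p_i`:
`(Φ τ).2 n = ω n = χM n ∏_{i ∈ TT} χ_i n = chS s τ.1 τ.2 n` (`χ_i n = 1` for `i ∉ TT`, as `n` is
invertible mod `p_i`). The trivial tuple gives the trivial character of level `1`.
Injectivity: if `Φ τ = Φ τ'` then `chS s τ.1 τ.2 n = chS s τ'.1 τ'.2 n` for all `n` coprime to
`M ∏_i p_i`. Given a unit `a` mod `p_i`, take `n ≡ a` mod `p_i`, `n ≡ 1` mod `M` and mod the other
`p_l` (Chinese remainder theorem, `M` and the `p_l` are pairwise coprime by `s.copM`, `s.inj`):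
`χ_i a = χ'_i a`; similarly `χM = χ'M`. (`MulChar.ext`, values at units.) -/
theorem prim_map (s : Sys ι J) (hM : 0 < s.M) :
    ∃ Φ : DirichletCharacter ℂ s.M × (∀ i, DirichletCharacter ℂ (s.pr i)) →
      Σ r : ℕ, DirichletCharacter ℂ r,
    Function.Injective Φ ∧ Φ (1, 1) = p0 ∧
    (∀ τ, 1 ≤ (Φ τ).1 ∧ (Φ τ).2.IsPrimitive ∧ (Φ τ).1 ∣ s.M * ∏ i ∈ TT s τ.2, s.pr i) ∧
    ∀ τ, ∀ n : ℕ, Nat.Coprime n s.M → (∀ i, ¬ s.pr i ∣ n) →
      (Φ τ).2 (n : ZMod (Φ τ).1) = chS s τ.1 τ.2 n := by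
  classical
  let Φ : DirichletCharacter ℂ s.M × (∀ i, DirichletCharacter ℂ (s.pr i)) →
      Σ r : ℕ, DirichletCharacter ℂ r := fun τ =>
    ⟨(f6_om s τ.1 τ.2).conductor, (f6_om s τ.1 τ.2).primitiveCharacter⟩
  have hval : ∀ τ, ∀ n : ℕ, Nat.Coprime n s.M → (∀ i, ¬ s.pr i ∣ n) →
      (Φ τ).2 (n : ZMod (Φ τ).1) = chS s τ.1 τ.2 n := by
    intro τ n hn hni
    obtain ⟨h1, h2⟩ := f6_om_apply s τ.1 τ.2 n hn hni
    rw [← h2]
    have h3 := DirichletCharacter.primitiveCharacter_apply_of_isCoprime (f6_om s τ.1 τ.2)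
      (a := (n : ℤ)) (Nat.isCoprime_iff_coprime.2 h1)
    simpa using h3
  refine ⟨Φ, ?_, ?_, ?_, hval⟩
  · intro τ τ' h
    have h1 := f6_inj s hM τ.1 τ'.1 τ.2 τ'.2 (fun n hn hni => by
      rw [← hval τ n hn hni, ← hval τ' n hn hni]
      exact f6_ev h n)
    exact Prod.ext h1.1 h1.2
  · apply f6_p0
    have : NeZero (f6_q s (1 : ∀ i, DirichletCharacter ℂ (s.pr i))) :=
      ⟨(f6_q_pos s hM _).ne'⟩
    have h1 : f6_om s (1 : DirichletCharacter ℂ s.M)
        (1 : ∀ i, DirichletCharacter ℂ (s.pr i)) = 1 := by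
      unfold f6_om
      rw [map_one, one_mul]
      refine prod_eq_one fun i _ => ?_
      split_ifs with h
      · rw [Pi.one_apply, map_one]
      · rfl
    change (f6_om s (1 : DirichletCharacter ℂ s.M)
        (1 : ∀ i, DirichletCharacter ℂ (s.pr i))).conductor = 1
    rw [h1]
    exact DirichletCharacter.conductor_one
  · intro τ
    have : NeZero (f6_q s τ.2) := ⟨(f6_q_pos s hM _).ne'⟩
    refine ⟨Nat.one_le_iff_ne_zero.2 (DirichletCharacter.conductor_ne_zero _),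
      DirichletCharacter.primitiveCharacter_isPrimitive _, DirichletCharacter.conductor_dvd_level _⟩

end Pool.Agent.Lib.H13C
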