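import Pool.Agent.Lib.H13C.Defs

/-!
# Chunk F7: Fourier expansion of the weight
-/

open Finset

namespace Pool.Agent.Lib.H13C

open Pool.Agent.Lib.H68T Pool.Agent.Lib.H56G

variable {ι J : Type} [Fintype ι] [DecidableEq ι] [Fintype J] [DecidableEq J]

/-- Local inversion: for `x ≠ 0` mod `p = pr i`,
`∑_χ gh χ χ(x) = (1/(p-1)) ∑_y ul_a(y) ul_a'(y) ∑_χ conj χ(y) χ(x)` and the inner sum is `p - 1` if
`x = y` and `0` otherwise (`DirichletCharacter.sum_char_inv_mul_char_eq`; `conj χ(y) = χ(y⁻¹)`,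
both `0` at `y = 0`; `totient p = p - 1`). -/
theorem local_inv (s : Sys ι J) (j0 : J) (i : ι) (a a' : Option J) (x : ZMod (s.pr i))
    (hx : x ≠ 0) :
    ((ul s j0 i a x * ul s j0 i a' x : ℝ) : ℂ) =
      ∑ χ : DirichletCharacter ℂ (s.pr i), gh s j0 i χ a a' * χ x := by
  sorry

/-- `(∑ c U)² = ∑_{κ,κ'} c c' ∏_i (ul_i ul_i)` with `local_inv` for each `i`, and
`1[n = b j0 mod M] = (1/φ(M)) ∑_{χM} conj χM(b j0) χM(n)` (orthogonality); multiply out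
(`Finset.prod_univ_sum`, `Fintype.piFinset_univ`). -/
theorem expand (s : Sys ι J) (hM : 0 < s.M) (j0 : J) (hb : Nat.Coprime (s.b j0) s.M)
    (c : (ι → Option J) → ℝ) (n : ℕ) (hn : Nat.Coprime n s.M) (hni : ∀ i, ¬ s.pr i ∣ n) :
    ((if n ≡ s.b j0 [MOD s.M] then (∑ κ, c κ * Un s j0 κ n) ^ 2 else 0 : ℝ) : ℂ) =
      ∑ χM : DirichletCharacter ℂ s.M, ∑ χ : (∀ i, DirichletCharacter ℂ (s.pr i)),
        (starRingEnd ℂ) (χM (s.b j0 : ZMod s.M)) / (s.M.totient : ℂ) * Bh s j0 c χ *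
          chS s χM χ n := by
  sorry

end Pool.Agent.Lib.H13C
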