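import Pool.Agent.Lib.H13C.F4
import Pool.Agent.Lib.H13C.F5
import Pool.Agent.Lib.H13C.F6
import Pool.Agent.Lib.H13C.F7

/-!
# Chunk F8: the sum of the weight over primes in a progression
-/

open Finset

namespace Pool.Agent.Lib.H13C

open Pool.Agent.Lib.H68T Pool.Agent.Lib.H56G

variable {ι J : Type} [Fintype ι] [DecidableEq ι] [Fintype J] [DecidableEq J]

theorem F8_ZZ_nonneg (s : Sys ι J) (bb : Finset ι → ℝ) : 0 ≤ ZZ s bb := by
  unfold ZZ wt vv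
  refine sum_nonneg fun κ _ => prod_nonneg fun j _ => mul_nonneg (sq_nonneg _) ?_
  unfold Sys.phi
  refine prod_nonneg fun i _ => ?_
  have h1 := (s.prime i).two_le
  have h2 : (2 : ℝ) ≤ s.pr i := by exact_mod_cast h1
  linarith

theorem F8_SX_p0_im (X : ℕ) : (SX X p0).im = 0 := by
  have h : SX X p0 = ((∑ n ∈ prX X, Real.log n * wX X n : ℝ) : ℂ) := by
    unfold SX p0
    rw [Complex.ofReal_sum]
    refine sum_congr rfl fun n _ => ?_
    have h1 : (1 : DirichletCharacter ℂ 1) ((n : ℕ) : ZMod 1) = 1 := by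
      have : ((n : ℕ) : ZMod 1) = 1 := Subsingleton.elim _ _
      rw [this, map_one]
    rw [h1, mul_one]
  rw [h]
  exact Complex.ofReal_im _

theorem F8_sum (s : Sys ι J) (hM : 0 < s.M) (j0 : J) (hb : Nat.Coprime (s.b j0) s.M)
    (c : (ι → Option J) → ℝ) (X : ℕ)
    (hX : ∀ n ∈ prX X, Nat.Coprime n s.M ∧ ∀ i, ¬ s.pr i ∣ n)
    (Φ : DirichletCharacter ℂ s.M × (∀ i, DirichletCharacter ℂ (s.pr i)) →
      Σ r : ℕ, DirichletCharacter ℂ r)
    (hval : ∀ τ, ∀ n : ℕ, Nat.Coprime n s.M → (∀ i, ¬ s.pr i ∣ n) →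
      (Φ τ).2 (n : ZMod (Φ τ).1) = chS s τ.1 τ.2 n) :
    ((∑ n ∈ (prX X).filter (fun n => n ≡ s.b j0 [MOD s.M]),
        Real.log n * wX X n * (∑ κ, c κ * Un s j0 κ n) ^ 2 : ℝ) : ℂ) =
      ∑ τ : DirichletCharacter ℂ s.M × (∀ i, DirichletCharacter ℂ (s.pr i)),
        ((starRingEnd ℂ) (τ.1 (s.b j0 : ZMod s.M)) / (s.M.totient : ℂ) * Bh s j0 c τ.2) *
          SX X (Φ τ) := by
  have hS : ∀ τ, SX X (Φ τ) =
      ∑ n ∈ prX X, ((Real.log n * wX X n : ℝ) : ℂ) * chS s τ.1 τ.2 n := by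
    intro τ
    unfold SX
    refine sum_congr rfl fun n hn => ?_
    rw [hval τ n (hX n hn).1 (hX n hn).2]
  have h1 : (∑ n ∈ (prX X).filter (fun n => n ≡ s.b j0 [MOD s.M]),
        Real.log n * wX X n * (∑ κ, c κ * Un s j0 κ n) ^ 2 : ℝ) =
      ∑ n ∈ prX X, (Real.log n * wX X n) *
        (if n ≡ s.b j0 [MOD s.M] then (∑ κ, c κ * Un s j0 κ n) ^ 2 else 0) := by
    rw [sum_filter]
    refine sum_congr rfl fun n _ => ?_
    split_ifs <;> simp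
  rw [h1, Complex.ofReal_sum]
  have h2 : ∀ n ∈ prX X, (((Real.log n * wX X n) *
        (if n ≡ s.b j0 [MOD s.M] then (∑ κ, c κ * Un s j0 κ n) ^ 2 else 0) : ℝ) : ℂ) =
      ∑ τ : DirichletCharacter ℂ s.M × (∀ i, DirichletCharacter ℂ (s.pr i)),
        ((starRingEnd ℂ) (τ.1 (s.b j0 : ZMod s.M)) / (s.M.totient : ℂ) * Bh s j0 c τ.2) *
          (((Real.log n * wX X n : ℝ) : ℂ) * chS s τ.1 τ.2 n) := by
    intro n hn
    rw [Complex.ofReal_mul, expand s hM j0 hb c n (hX n hn).1 (hX n hn).2, mul_sum,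
      Fintype.sum_prod_type]
    refine sum_congr rfl fun χM _ => ?_
    rw [mul_sum]
    refine sum_congr rfl fun χ _ => ?_
    ring
  rw [sum_congr rfl h2, sum_comm]
  refine sum_congr rfl fun τ _ => ?_
  rw [hS, mul_sum]

open scoped Classical in
/-- Put `S τ = ∑_{n ∈ prX X} log n wX(n) chS τ n = SX X (Φ τ)` (`prim_map`). By `expand` the left
side is `(1/φ(M)) ∑_τ conj τ.1(b) Bh τ.2 S τ`. The tuple `(1, 1)` gives `Bh 1 · SX X p0` (real
parts: `SX X p0` is real, and the real part of `Bh 1` times a real number). Other tuples: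
* `∏_{TT} p_i > D²`: `Bh = 0` (`Bh_eq_zero`);
* `∏_{TT} p_i ≤ E`: `Φ τ ∈ PC (M E)` (its conductor divides `M ∏ p_i`), `Φ τ ≠ p0` by injectivity,
  `p₁` does not divide the conductor (`p₁` is prime, not a factor of `M`, not one of the `p_i`), and
  `‖Bh‖ ≤ 2 ZZ` (`Bh_bound`, `p_i^(-1/4) ≤ 1`);
* `E < ∏_{TT} p_i ≤ D²`: `Φ τ ∈ PC (M E')`, and `‖Bh‖ ≤ 2 ZZ E^(-1/4)`.
`Φ` is injective, so the sums over `τ` are at most the sums over `PC`. -/
theorem prime_sum_ge (s : Sys ι J) (hM : 0 < s.M) (W : ℕ)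
    (hW : 2500 * (Fintype.card J + 1) ^ 4 ≤ W) (hpr : ∀ i, W < s.pr i)
    (z θ : ℝ) (hθ0 : 0 ≤ θ) (hθ1 : θ ≤ 1) (hS : 0 < SS s z)
    (hSp : ∀ i, 1 ≤ SS s z * Real.log (s.pr i)) (j0 : J) (hb : Nat.Coprime (s.b j0) s.M)
    (c : (ι → Option J) → ℝ) (D : ℝ) (hD : 1 ≤ D)
    (hlog : 16 * (Fintype.card J + 1) * Real.log D ≤ W)
    (hc : ∀ κ, c κ ≠ 0 → κ ∈ noJ j0) (hcD : ∀ κ, c κ ≠ 0 → s.r κ ≤ D)
    (hcw : ∀ κ, (c κ) ^ 2 * s.ph κ ≤ wt s (bt s z θ) κ)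
    (X E E' p₁ : ℕ) (hE : 1 ≤ E) (hE' : D ^ 2 ≤ E') (hp₁ : p₁.Prime) (hp₁M : ¬ p₁ ∣ s.M)
    (hp₁i : ∀ i, s.pr i ≠ p₁)
    (hX : ∀ n ∈ prX X, Nat.Coprime n s.M ∧ ∀ i, ¬ s.pr i ∣ n) :
    (1 / (s.M.totient : ℝ)) * ((Bh s j0 c 1).re * (SX X p0).re -
        2 * ZZ s (bt s z θ) *
          (∑ p ∈ (PC (s.M * E)).filter (fun p => p ≠ p0 ∧ ¬ p₁ ∣ p.1), ‖SX X p‖ +
            (E : ℝ) ^ (-(1 / 4 : ℝ)) * ∑ p ∈ PC (s.M * E'), ‖SX X p‖)) ≤
      ∑ n ∈ (prX X).filter (fun n => n ≡ s.b j0 [MOD s.M]),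
        Real.log n * wX X n * (∑ κ, c κ * Un s j0 κ n) ^ 2 := by
  obtain ⟨Φ, hinj, h0, hprop, hval⟩ := prim_map s hM
  set A : DirichletCharacter ℂ s.M × (∀ i, DirichletCharacter ℂ (s.pr i)) → ℂ := fun τ =>
    (starRingEnd ℂ) (τ.1 (s.b j0 : ZMod s.M)) / (s.M.totient : ℂ) * Bh s j0 c τ.2 with hA
  have hT := F8_sum s hM j0 hb c X hX Φ hval
  have hφ : (0 : ℝ) < s.M.totient := by exact_mod_cast Nat.totient_pos.mpr hM
  have hre : (∑ n ∈ (prX X).filter (fun n => n ≡ s.b j0 [MOD s.M]),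
        Real.log n * wX X n * (∑ κ, c κ * Un s j0 κ n) ^ 2 : ℝ) =
      ∑ τ : DirichletCharacter ℂ s.M × (∀ i, DirichletCharacter ℂ (s.pr i)),
        (A τ * SX X (Φ τ)).re := by
    have h := congrArg Complex.re hT
    rw [Complex.ofReal_re, Complex.re_sum] at h
    exact h
  rw [hre, ← Finset.add_sum_erase _ _ (Finset.mem_univ
    ((1, 1) : DirichletCharacter ℂ s.M × (∀ i, DirichletCharacter ℂ (s.pr i))))]
  -- the main term
  have hmain : (A (1, 1) * SX X (Φ (1, 1))).re =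
      (1 / (s.M.totient : ℝ)) * ((Bh s j0 c 1).re * (SX X p0).re) := by
    have h1 : (1 : DirichletCharacter ℂ s.M) (s.b j0 : ZMod s.M) = 1 :=
      MulChar.one_apply ((ZMod.isUnit_iff_coprime _ _).mpr hb)
    have h2 : A (1, 1) = (((1 / (s.M.totient : ℝ)) : ℝ) : ℂ) * Bh s j0 c 1 := by
      rw [hA]
      simp only [h1, map_one]
      push_cast
      rfl
    rw [h2, h0, mul_assoc, Complex.re_ofReal_mul, Complex.mul_re, F8_SX_p0_im, mul_zero, sub_zero]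
  -- the norms of the coefficients
  have hAn : ∀ τ, ‖A τ‖ ≤ (1 / (s.M.totient : ℝ)) * ‖Bh s j0 c τ.2‖ := by
    intro τ
    rw [hA]
    simp only [norm_mul, norm_div, RCLike.norm_conj, Complex.norm_natCast]
    refine mul_le_mul_of_nonneg_right ?_ (norm_nonneg _)
    exact div_le_div_of_nonneg_right (DirichletCharacter.norm_le_one _ _) hφ.le
  have hZ : 0 ≤ ZZ s (bt s z θ) := F8_ZZ_nonneg s _
  -- the product of the primes of a tuple
  set P : DirichletCharacter ℂ s.M × (∀ i, DirichletCharacter ℂ (s.pr i)) → ℕ :=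
    fun τ => ∏ i ∈ TT s τ.2, s.pr i with hP
  have hPpos : ∀ τ, 1 ≤ P τ := fun τ => Finset.one_le_prod' fun i _ => (s.prime i).one_lt.le
  have hPcast : ∀ τ, ((P τ : ℕ) : ℝ) = ∏ i ∈ TT s τ.2, (s.pr i : ℝ) := by
    intro τ
    rw [hP]
    push_cast
    rfl
  have hBh : ∀ τ, ‖Bh s j0 c τ.2‖ ≤ 2 * ZZ s (bt s z θ) * (P τ : ℝ) ^ (-(1 / 4 : ℝ)) := by
    intro τ
    have h1 := Bh_bound s W hW hpr z θ hθ0 hθ1 hS hSp j0 c D hD hlog hc hcD hcw τ.2
    rw [hPcast, ← Real.finset_prod_rpow _ _ (fun i _ => Nat.cast_nonneg _)]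
    exact h1
  set sA := (univ.erase ((1, 1) : DirichletCharacter ℂ s.M ×
    (∀ i, DirichletCharacter ℂ (s.pr i)))).filter (fun τ => P τ ≤ E) with hsA
  set sB := (univ.erase ((1, 1) : DirichletCharacter ℂ s.M ×
    (∀ i, DirichletCharacter ℂ (s.pr i)))).filter (fun τ => ¬ P τ ≤ E ∧ P τ ≤ E') with hsB
  have hbound : ∀ τ, ‖A τ * SX X (Φ τ)‖ ≤ (1 / (s.M.totient : ℝ)) *
      ((if P τ ≤ E then 2 * ZZ s (bt s z θ) * ‖SX X (Φ τ)‖ else 0) +
        (if ¬ P τ ≤ E ∧ P τ ≤ E' then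
          2 * ZZ s (bt s z θ) * ((E : ℝ) ^ (-(1 / 4 : ℝ)) * ‖SX X (Φ τ)‖) else 0)) := by
    intro τ
    rw [norm_mul]
    refine (mul_le_mul_of_nonneg_right (hAn τ) (norm_nonneg _)).trans ?_
    rw [mul_assoc]
    refine mul_le_mul_of_nonneg_left ?_ (by positivity)
    have hn := norm_nonneg (SX X (Φ τ))
    by_cases h1 : P τ ≤ E
    · rw [if_pos h1, if_neg (by tauto), add_zero]
      refine mul_le_mul_of_nonneg_right ?_ hn
      refine (hBh τ).trans ?_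
      have h3 : (P τ : ℝ) ^ (-(1 / 4 : ℝ)) ≤ 1 :=
        Real.rpow_le_one_of_one_le_of_nonpos (by exact_mod_cast hPpos τ) (by norm_num)
      have h4 := mul_le_mul_of_nonneg_left h3 (mul_nonneg zero_le_two hZ)
      linarith
    · rw [if_neg h1, zero_add]
      by_cases h2 : P τ ≤ E'
      · rw [if_pos ⟨h1, h2⟩, ← mul_assoc]
        refine mul_le_mul_of_nonneg_right ?_ hn
        refine (hBh τ).trans ?_
        refine mul_le_mul_of_nonneg_left ?_ (mul_nonneg zero_le_two hZ)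
        refine Real.rpow_le_rpow_of_nonpos (by exact_mod_cast hE) ?_ (by norm_num)
        exact_mod_cast (not_le.mp h1).le
      · rw [if_neg (by tauto)]
        have h3 : D ^ 2 < ∏ i ∈ TT s τ.2, (s.pr i : ℝ) := by
          rw [← hPcast]
          refine lt_of_le_of_lt hE' ?_
          exact_mod_cast not_le.mp h2
        rw [Bh_eq_zero s j0 c D hcD τ.2 h3, norm_zero, zero_mul]
  have hsumA : ∑ τ ∈ sA, ‖SX X (Φ τ)‖ ≤
      ∑ p ∈ (PC (s.M * E)).filter (fun p => p ≠ p0 ∧ ¬ p₁ ∣ p.1), ‖SX X p‖ := by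
    rw [← Finset.sum_image (f := fun p => ‖SX X p‖) (g := Φ) (hinj.injOn)]
    refine Finset.sum_le_sum_of_subset_of_nonneg ?_ fun _ _ _ => norm_nonneg _
    intro p hp
    obtain ⟨τ, hτ, rfl⟩ := Finset.mem_image.mp hp
    rw [hsA, mem_filter, mem_erase] at hτ
    obtain ⟨⟨hne, -⟩, hle⟩ := hτ
    obtain ⟨h1, h2, h3⟩ := hprop τ
    rw [mem_filter, mem_PC]
    refine ⟨⟨h1, ?_, h2⟩, ?_, ?_⟩
    · refine (Nat.le_of_dvd (Nat.mul_pos hM (hPpos τ)) h3).trans ?_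
      exact Nat.mul_le_mul_left _ hle
    · intro h
      exact hne (hinj (h.trans h0.symm))
    · intro h
      have h4 := h.trans h3
      rcases (Nat.Prime.dvd_mul hp₁).mp h4 with h5 | h5
      · exact hp₁M h5
      · obtain ⟨i, -, hi⟩ := (Prime.dvd_finset_prod_iff hp₁.prime _).mp h5
        exact hp₁i i ((Nat.prime_dvd_prime_iff_eq hp₁ (s.prime i)).mp hi).symm
  have hsumB : ∑ τ ∈ sB, ‖SX X (Φ τ)‖ ≤ ∑ p ∈ PC (s.M * E'), ‖SX X p‖ := by
    rw [← Finset.sum_image (f := fun p => ‖SX X p‖) (g := Φ) (hinj.injOn)]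
    refine Finset.sum_le_sum_of_subset_of_nonneg ?_ fun _ _ _ => norm_nonneg _
    intro p hp
    obtain ⟨τ, hτ, rfl⟩ := Finset.mem_image.mp hp
    rw [hsB, mem_filter] at hτ
    obtain ⟨h1, h2, h3⟩ := hprop τ
    rw [mem_PC]
    refine ⟨h1, ?_, h2⟩
    refine (Nat.le_of_dvd (Nat.mul_pos hM (hPpos τ)) h3).trans ?_
    exact Nat.mul_le_mul_left _ hτ.2.2
  have htotal : ∑ τ ∈ univ.erase ((1, 1) : DirichletCharacter ℂ s.M ×
      (∀ i, DirichletCharacter ℂ (s.pr i))), ‖A τ * SX X (Φ τ)‖ ≤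
      (1 / (s.M.totient : ℝ)) * (2 * ZZ s (bt s z θ) *
          (∑ p ∈ (PC (s.M * E)).filter (fun p => p ≠ p0 ∧ ¬ p₁ ∣ p.1), ‖SX X p‖ +
            (E : ℝ) ^ (-(1 / 4 : ℝ)) * ∑ p ∈ PC (s.M * E'), ‖SX X p‖)) := by
    refine (sum_le_sum fun τ _ => hbound τ).trans ?_
    rw [← mul_sum, sum_add_distrib, ← sum_filter, ← sum_filter, ← mul_sum, ← mul_sum, ← mul_sum,
      ← mul_add]
    refine mul_le_mul_of_nonneg_left ?_ (by positivity)
    refine mul_le_mul_of_nonneg_left ?_ (mul_nonneg zero_le_two hZ)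
    refine add_le_add hsumA ?_
    exact mul_le_mul_of_nonneg_left hsumB (by positivity)
  have hlow : -(∑ τ ∈ univ.erase ((1, 1) : DirichletCharacter ℂ s.M ×
      (∀ i, DirichletCharacter ℂ (s.pr i))), ‖A τ * SX X (Φ τ)‖) ≤
      ∑ τ ∈ univ.erase ((1, 1) : DirichletCharacter ℂ s.M ×
      (∀ i, DirichletCharacter ℂ (s.pr i))), (A τ * SX X (Φ τ)).re := by
    rw [← sum_neg_distrib]
    refine sum_le_sum fun τ _ => ?_
    exact neg_le_of_abs_le (Complex.abs_re_le_norm _)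
  rw [hmain, mul_sub]
  linarith

end Pool.Agent.Lib.H13C
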