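import Pool.Agent.Lib.H13C.Defs
import Pool.Agent.Lib.H68T.PAGE

/-!
# Chunk P1: Page's theorem, a prime factor of the exceptional conductor
-/

open Finset

namespace Pool.Agent.Lib.H13C

open Pool.Agent.Lib.H68T

/-- `c = c₀` of `H68T.page`. If there is a primitive real `ψ₁ ≠ 1` of conductor `r₁ ≤ Q` with a zero in
`[1 - c/log Q, 1]` let `p₁` be a prime factor of `r₁` (`r₁ ≠ 1` as `ψ₁ ≠ 1` is primitive, or since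
a character mod `1` is trivial); by `page` every such pair is equal to `(r₁, ψ₁)`, and `p₁ ∣ r₁`.
Otherwise `p₁ = 2`. -/
theorem page_prime : ∃ c K : ℝ, 0 < c ∧ ∀ Q : ℕ, K ≤ Q → ∃ p₁ : ℕ, p₁.Prime ∧ GoodOff c Q p₁ := by
  obtain ⟨c, K, hc, hpage⟩ := page
  refine ⟨c, K, hc, fun Q hQ => ?_⟩
  by_cases hbad : ∃ (r₁ : ℕ) (_ : NeZero r₁) (ψ₁ : DirichletCharacter ℂ r₁) (σ₁ : ℝ), r₁ ≤ Q ∧
      ψ₁.IsPrimitive ∧ ψ₁ ≠ 1 ∧ ψ₁ ^ 2 = 1 ∧ 1 - c / Real.log Q ≤ σ₁ ∧ σ₁ ≤ 1 ∧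
      ψ₁.LFunction (σ₁ : ℂ) = 0
  · obtain ⟨r₁, hr0, ψ₁, σ₁, hrQ, hprim, hne, hsq, hs1, hs2, hz⟩ := hbad
    have hr1 : r₁ ≠ 1 := by
      rintro rfl
      exact hne (DirichletCharacter.level_one ψ₁)
    obtain ⟨p₁, hp, hpd⟩ := Nat.exists_prime_and_dvd hr1
    refine ⟨p₁, hp, ?_⟩
    intro r _ ψ hr hnd hprim' hne' hsq' σ h1 h2 hz'
    refine hpage Q hQ r r₁ ψ ψ₁ hr hrQ hprim' hprim hne' hne hsq' hsq ?_ σ σ₁ h1 h2 hs1 hs2 hz' hz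
    intro heq
    have h3 : r = r₁ := congrArg Sigma.fst heq
    exact hnd (h3 ▸ hpd)
  · refine ⟨2, Nat.prime_two, ?_⟩
    intro r _ ψ hr _ hprim' hne' hsq' σ h1 h2 hz'
    exact hbad ⟨r, inferInstance, ψ, σ, hr, hprim', hne', hsq', h1, h2, hz'⟩

end Pool.Agent.Lib.H13C
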