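import Pool.Agent.Lib.H13C.P2a
import Pool.Agent.Lib.H68T.MS
import Pool.Agent.Lib.H68T.MAIN

/-!
# Chunk P2b: the Möbius polynomials are small, and the `L¹` norm of the main parts
-/

open Finset MeasureTheory

namespace Pool.Agent.Lib.H13C

open Pool.Agent.Lib.H68T

/-- Copy of `H68T.Mu_small` (MS.lean) with `inv_off` in place of `inv_all`. -/
theorem Mu_small_off (c : ℝ) (hc : 0 < c) (A : ℝ) : ∃ K : ℝ, ∀ Q X p₁ : ℕ, Reg K Q X →
    GoodOff c Q p₁ → ∀ p ∈ PC Q, ¬ p₁ ∣ p.1 →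
    ∀ t : ℝ, |t| ≤ (Q : ℝ) ^ 11 → ‖Mu X p t‖ ≤ (Real.log X) ^ (-A) := by
  set A₀ : ℝ := |A| with hA₀
  have hA₀0 : 0 ≤ A₀ := abs_nonneg _
  have hAA₀ : A ≤ A₀ := le_abs_self _
  obtain ⟨c', C, K₁, hc', hC, hinv⟩ := inv_off c hc
  obtain ⟨P, hP, hper⟩ := perron
  obtain ⟨K₂, hK₂1, hK₂⟩ := reg_exp_le (3 * P * (C + 1)) (2 * A₀ + 11) (c' / 5) (by positivity)
  obtain ⟨K₃, hK₃1, hK₃⟩ := reg_log_le (3 * P * (C + 1)) (2 * A₀ + 11) 22 (by norm_num)
  obtain ⟨K₄, hK₄1, hK₄⟩ := reg_log_le (12 * P) (2 * A₀ + 12) 11 (by norm_num)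
  obtain ⟨K₅, hK₅1, hK₅⟩ := reg_log_le 1 (2 * A₀ + 10) 1 (by norm_num)
  obtain ⟨K₆, hK₆1, hK₆⟩ := reg_pow_le 1 1 (1 / 5) (by norm_num)
  obtain ⟨K₇, hK₇1, hK₇⟩ := reg_pow_le 2 0 (1 / 20) (by norm_num)
  refine ⟨|K₁| + K₂ + K₃ + K₄ + K₅ + K₆ + K₇ + 2 * c' + 10, ?_⟩
  intro Q X p₁ hreg hgood p hp hpp t ht
  have a1 : 0 ≤ |K₁| := abs_nonneg _
  have b1 : K₁ ≤ |K₁| := le_abs_self _
  have hKpos : 0 ≤ |K₁| + K₂ + K₃ + K₄ + K₅ + K₆ + K₇ + 2 * c' + 10 := by linarith
  have r1 : Reg (|K₁| + 2 * c' + 10) Q X := hreg.mono hKpos (by linarith)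
  have r2 : Reg K₂ Q X := hreg.mono hKpos (by linarith)
  have r3 : Reg K₃ Q X := hreg.mono hKpos (by linarith)
  have r4 : Reg K₄ Q X := hreg.mono hKpos (by linarith)
  have r5 : Reg K₅ Q X := hreg.mono hKpos (by linarith)
  have r6 : Reg K₆ Q X := hreg.mono hKpos (by linarith)
  have r7 : Reg K₇ Q X := hreg.mono hKpos (by linarith)
  set L : ℝ := Real.log X with hL
  have hLbig : 10 ≤ L := by
    have h1 := r1.logX_ge (by linarith)
    have := Real.add_one_le_exp (|K₁| + 2 * c' + 10)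
    linarith
  have hL0 : 0 < L := by linarith
  have hL1 : 1 ≤ L := by linarith
  have hQbig : |K₁| + 2 * c' + 10 ≤ Q := r1.Q_ge (by linarith)
  have hQ10 : (10 : ℝ) ≤ Q := by linarith
  have hQ0 : (0 : ℝ) < Q := by linarith
  have hQK : K₁ ≤ Q := by linarith
  have hlQbig : |K₁| + 2 * c' + 10 ≤ Real.log Q := r1.logQ_ge (by linarith)
  have hlQ0 : 0 < Real.log Q := by linarith
  have hlQL : Real.log Q ≤ L := by
    have h1 := r1.logQ_le (by linarith)
    have h2 : 1 * Real.log Q ≤ (|K₁| + 2 * c' + 10) * Real.log Q :=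
      mul_le_mul_of_nonneg_right (by linarith) hlQ0.le
    linarith
  have hX1 : 1 ≤ X := r1.X_pos (by linarith)
  have hX0 : (0 : ℝ) < X := by exact_mod_cast hX1
  have hX10 : (10 : ℝ) ≤ X := by
    have := r1.X_ge (by linarith)
    linarith
  -- the numbers
  set κ : ℝ := L ^ (-(2 * A₀ + 10)) with hκ
  have hκ0 : 0 < κ := Real.rpow_pos_of_pos hL0 _
  have hκ1 : κ ≤ 1 := Real.rpow_le_one_of_one_le_of_nonpos hL1 (by linarith)
  have hy : (2 : ℝ) ≤ (X : ℝ) ^ ((1 : ℝ) / 20) := by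
    have := hK₇ Q X r7
    simpa using this
  set y : ℝ := (X : ℝ) ^ ((1 : ℝ) / 20) with hydef
  have hy4 : (X : ℝ) ^ ((1 : ℝ) / 5) = y ^ 4 := by
    rw [hydef, ← Real.rpow_natCast, ← Real.rpow_mul hX0.le]
    norm_num
  have hy5 : (X : ℝ) ^ ((1 : ℝ) / 4) = y ^ 5 := by
    rw [hydef, ← Real.rpow_natCast, ← Real.rpow_mul hX0.le]
    norm_num
  set u₀ : ℝ := (X : ℝ) ^ ((1 : ℝ) / 5) with hu₀
  have hu₀16 : (16 : ℝ) ≤ u₀ := by
    rw [hy4]
    have := pow_le_pow_left₀ (by norm_num) hy 4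
    linarith
  have hκu : 1 ≤ κ * u₀ := by
    have h1 : L ^ (2 * A₀ + 10) ≤ Q := by
      have := hK₅ Q X r5
      simpa using this
    have h2 : (Q : ℝ) ≤ u₀ := by
      have := hK₆ Q X r6
      rw [one_mul, Real.rpow_one] at this
      exact this
    rw [hκ, Real.rpow_neg hL0.le, ← div_eq_inv_mul, le_div_iff₀ (Real.rpow_pos_of_pos hL0 _)]
    linarith
  -- the analytic input
  obtain ⟨g, hg1, hg2, hg3⟩ := hinv Q p₁ hQK hgood p hp hpp
  set η : ℝ := c' / Real.log Q with hη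
  have hη0 : 0 < η := by positivity
  have hη1 : η ≤ 1 / 2 := by
    rw [hη, div_le_iff₀ hlQ0]
    linarith
  set T : ℝ := (Q : ℝ) ^ 11 with hT
  have hT1 : 1 ≤ T := one_le_pow₀ (by linarith)
  have hT0 : 0 < T := by linarith
  have hT2 : 2 * T ≤ (Q : ℝ) ^ 12 := by
    have : (Q : ℝ) ^ 12 = T * Q := by rw [hT]; ring
    rw [this]
    nlinarith
  set B : ℝ := (C + 1) * L with hB
  have hB1 : 1 ≤ B := by
    rw [hB]
    nlinarith
  have hCB : C * Real.log Q ≤ B := by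
    rw [hB]
    nlinarith
  have hmem : ∀ s : ℂ, 1 - η ≤ s.re → s.re ≤ 2 → |s.im| ≤ T →
      s + t * Complex.I ∈ Rg c' Q := by
    intro s h1 h2 h3
    refine ⟨?_, ?_, ?_⟩
    · simpa using h1
    · simpa using h2
    · have : (s + t * Complex.I).im = s.im + t := by simp
      rw [this]
      refine (abs_add_le _ _).trans ?_
      linarith
  have hf1 : AnalyticOnNhd ℂ (fun s => g (s + t * Complex.I))
      {s | 1 - η ≤ s.re ∧ s.re ≤ 2 ∧ |s.im| ≤ T} := by
    intro s hs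
    have h1 := hg1 _ (hmem s hs.1 hs.2.1 hs.2.2)
    exact AnalyticAt.fun_comp h1 (by fun_prop)
  have hces : ∀ u : ℝ, u₀ ≤ u → u ≤ 2 * (X : ℝ) →
      ‖∑ n ∈ Icc 1 ⌊u⌋₊, msA p t n * (1 - n / u)‖ ≤ κ * u := by
    intro u hu1 hu2
    have hu0 : 0 < u := by linarith
    have h1 := hper (msA p t) (fun s => g (s + t * Complex.I)) 0 η T B u (by simp) hη0 hη1 hT1
      (by linarith) hB1 (fun n hn => by
        have h2 := ms_norm_A p t n hn
        have h3 : 0 ≤ Real.log n := Real.log_natCast_nonneg n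
        linarith) hf1
      (fun s h1 h2 h3 => (hg3 _ (hmem s h1 h2 h3)).trans hCB)
      (fun s hs => by
        rw [ms_LSeries]
        have : (1 : ℝ) < (s + t * Complex.I).re := by simpa using hs
        rw [← hg2 _ this]
        simp)
    rw [zero_mul, sub_zero] at h1
    refine h1.trans ?_
    -- first term
    have hlogu : L / 5 ≤ Real.log u := by
      have : Real.log u₀ = L / 5 := by
        rw [hu₀, Real.log_rpow hX0]
        ring
      rw [← this]
      exact Real.log_le_log (by linarith) hu1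
    have hlogu2 : 1 + Real.log u ≤ 2 * L := by
      have h2 : Real.log u ≤ Real.log (2 * X) := Real.log_le_log hu0 hu2
      rw [Real.log_mul (by norm_num) hX0.ne', ← hL] at h2
      have : Real.log 2 ≤ 1 := by
        have := Real.log_two_lt_d9
        linarith
      linarith
    have hlogu0 : 0 ≤ Real.log u := by
      refine le_trans (by positivity) hlogu
    have t1 : P * (B * u ^ (1 - η)) ≤ κ / 3 * u := by
      have h2 : u ^ (1 - η) ≤ u * Real.exp (-(c' / 5 * (L / Real.log Q))) := by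
        rw [Real.rpow_sub hu0, Real.rpow_one, div_eq_mul_inv, ← Real.rpow_neg hu0.le]
        refine mul_le_mul_of_nonneg_left ?_ hu0.le
        rw [Real.rpow_def_of_pos hu0]
        refine Real.exp_le_exp.2 ?_
        have h3 : L / 5 * η ≤ Real.log u * η := mul_le_mul_of_nonneg_right hlogu hη0.le
        have h4 : c' / 5 * (L / Real.log Q) = L / 5 * η := by
          rw [hη]
          ring
        rw [h4]
        linarith
      have h3 := hK₂ Q X r2
      have h4 : L ^ (2 * A₀ + 11) = L / κ := by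
        rw [hκ, Real.rpow_neg hL0.le, div_inv_eq_mul, show 2 * A₀ + 11 = 1 + (2 * A₀ + 10) by ring,
          Real.rpow_add hL0, Real.rpow_one]
      rw [← hL, h4] at h3
      have h5 : 3 * P * (C + 1) * L * Real.exp (-(c' / 5 * (L / Real.log Q))) ≤ κ := by
        have h6 : 3 * P * (C + 1) * (L / κ) * Real.exp (-(c' / 5 * (L / Real.log Q))) =
          (3 * P * (C + 1) * L * Real.exp (-(c' / 5 * (L / Real.log Q)))) / κ := by ring
        rw [h6, div_le_one hκ0] at h3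
        exact h3
      calc P * (B * u ^ (1 - η)) ≤ P * (B * (u * Real.exp (-(c' / 5 * (L / Real.log Q))))) := by
            gcongr
        _ = (3 * P * (C + 1) * L * Real.exp (-(c' / 5 * (L / Real.log Q)))) / 3 * u := by
            rw [hB]; ring
        _ ≤ κ / 3 * u := by gcongr
    have t2 : P * (B * u / T ^ 2) ≤ κ / 3 * u := by
      have h3 := hK₃ Q X r3
      have h4 : L ^ (2 * A₀ + 11) = L / κ := by
        rw [hκ, Real.rpow_neg hL0.le, div_inv_eq_mul, show 2 * A₀ + 11 = 1 + (2 * A₀ + 10) by ring,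
          Real.rpow_add hL0, Real.rpow_one]
      have h5 : (Q : ℝ) ^ (22 : ℝ) = T ^ 2 := by
        rw [hT, ← pow_mul, ← Real.rpow_natCast]
        norm_num
      rw [← hL, h4, h5] at h3
      have h6 : 3 * P * (C + 1) * L / T ^ 2 ≤ κ := by
        rw [div_le_iff₀ (by positivity)]
        have h7 : 3 * P * (C + 1) * (L / κ) = (3 * P * (C + 1) * L) / κ := by ring
        rw [h7, div_le_iff₀ hκ0] at h3
        linarith
      calc P * (B * u / T ^ 2) = (3 * P * (C + 1) * L / T ^ 2) / 3 * u := by rw [hB]; ring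
        _ ≤ κ / 3 * u := by gcongr
    have t3 : P * (u * (1 + Real.log u) ^ 2 / T) ≤ κ / 3 * u := by
      have h3 := hK₄ Q X r4
      have h4 : L ^ (2 * A₀ + 12) = L ^ 2 / κ := by
        rw [hκ, Real.rpow_neg hL0.le, div_inv_eq_mul, show 2 * A₀ + 12 = 2 + (2 * A₀ + 10) by ring,
          Real.rpow_add hL0, Real.rpow_two]
      have h5 : (Q : ℝ) ^ (11 : ℝ) = T := by
        rw [hT, ← Real.rpow_natCast]
        norm_num
      rw [← hL, h4, h5] at h3
      have h6 : 12 * P * L ^ 2 / T ≤ κ := by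
        rw [div_le_iff₀ hT0]
        have h7 : 12 * P * (L ^ 2 / κ) = (12 * P * L ^ 2) / κ := by ring
        rw [h7, div_le_iff₀ hκ0] at h3
        linarith
      have h8 : (1 + Real.log u) ^ 2 ≤ (2 * L) ^ 2 :=
        pow_le_pow_left₀ (by linarith) hlogu2 2
      calc P * (u * (1 + Real.log u) ^ 2 / T) ≤ P * (u * (2 * L) ^ 2 / T) := by gcongr
        _ = (12 * P * L ^ 2 / T) / 3 * u := by ring
        _ ≤ κ / 3 * u := by gcongr
    rw [mul_add, mul_add]
    linarith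
  have huns := unsmooth (msA p t) κ u₀ X hκ0 hκ1 (by linarith) hκu
    (fun n hn => by
        have h2 := ms_norm_A p t n hn
        have h3 : 0 ≤ Real.log n := Real.log_natCast_nonneg n
        linarith) hces
  -- partial summation
  have hsq : Real.sqrt κ = L ^ (-(A₀ + 5)) := by
    rw [hκ, Real.sqrt_eq_rpow, ← Real.rpow_mul hL0.le]
    congr 1
    ring
  set δ : ℝ := 40 * L ^ (-(A₀ + 4)) with hδ
  have hδ0 : 0 ≤ δ := by positivity
  have hAA1 : y ^ 5 ≤ (AA X : ℝ) := by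
    rw [← hy5]
    exact Nat.le_ceil _
  have hAA2 : 1 ≤ AA X := by
    have h1 : (1 : ℝ) ≤ AA X := by
      refine le_trans ?_ hAA1
      exact one_le_pow₀ (by linarith)
    exact_mod_cast h1
  have hVV : (VV X : ℝ) ≤ X := by
    unfold VV
    have h1 : (((60 * X : ℕ) : ℝ) ^ ((1 : ℝ) / 3)) ≤ X := by
      have h2 : ((60 * X : ℕ) : ℝ) ≤ (X : ℝ) ^ (3 : ℝ) := by
        push_cast
        rw [show (3 : ℝ) = ((3 : ℕ) : ℝ) by norm_num, Real.rpow_natCast]
        nlinarith [mul_pos hX0 hX0]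
      calc (((60 * X : ℕ) : ℝ) ^ ((1 : ℝ) / 3)) ≤ ((X : ℝ) ^ (3 : ℝ)) ^ ((1 : ℝ) / 3) :=
            Real.rpow_le_rpow (by positivity) h2 (by norm_num)
        _ = X := by
            rw [← Real.rpow_mul hX0.le]
            norm_num
    exact (Nat.floor_le (by positivity)).trans h1
  have hVV1 : 1 ≤ VV X := by
    unfold VV
    refine Nat.le_floor ?_
    push_cast
    refine Real.one_le_rpow ?_ (by norm_num)
    linarith
  obtain ⟨M, hM⟩ : ∃ M, AA X = M + 1 := ⟨AA X - 1, by omega⟩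
  have hMu₀ : u₀ ≤ (M : ℝ) := by
    have h1 : (AA X : ℝ) = M + 1 := by rw [hM]; push_cast; ring
    rw [h1] at hAA1
    rw [hy4]
    have h2 : y ^ 5 = y ^ 4 * y := by ring
    have h3 : 1 ≤ y ^ 4 := one_le_pow₀ (by linarith)
    nlinarith
  rw [ms_Mu X p t hAA2, hM]
  have hab := ms_abel (msA p t) δ hδ0 M (VV X) hVV1 (fun n h1 h2 => by
    have hn1 : u₀ ≤ (n : ℝ) := hMu₀.trans (by exact_mod_cast h1)
    have hn2 : (n : ℝ) ≤ X := le_trans (by exact_mod_cast h2) hVV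
    have hn0 : (0 : ℝ) < n := by linarith
    have h3 := huns n hn1 hn2
    rw [Nat.floor_natCast, hsq] at h3
    refine h3.trans ?_
    have h4 : 1 + Real.log n ≤ 2 * L := by
      have : Real.log n ≤ L := Real.log_le_log hn0 hn2
      linarith
    have h5 : L ^ (-(A₀ + 5)) * L = L ^ (-(A₀ + 4)) := by
      rw [show -(A₀ + 4) = -(A₀ + 5) + 1 by ring, Real.rpow_add hL0, Real.rpow_one]
    calc 20 * L ^ (-(A₀ + 5)) * n * (1 + Real.log n)
        ≤ 20 * L ^ (-(A₀ + 5)) * n * (2 * L) := by gcongr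
      _ = 40 * (L ^ (-(A₀ + 5)) * L) * n := by ring
      _ = δ * n := by rw [h5, hδ])
  refine hab.trans ?_
  have hlV : Real.log (VV X) ≤ L := by
    refine Real.log_le_log (by exact_mod_cast hVV1) hVV
  have h6 : L ^ (-(A₀ + 4)) * L ^ 4 = L ^ (-A₀) := by
    rw [← Real.rpow_natCast L 4, ← Real.rpow_add hL0]
    congr 1
    push_cast
    ring
  have h7 : L ^ (-A₀) ≤ L ^ (-A) := Real.rpow_le_rpow_of_exponent_le hL1 (by linarith)
  refine le_trans ?_ h7
  calc δ * (3 + Real.log (VV X)) ≤ δ * (2 * L) := by gcongr; linarith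
    _ = L ^ (-(A₀ + 4)) * (80 * L) := by rw [hδ]; ring
    _ ≤ L ^ (-(A₀ + 4)) * L ^ 4 := by
        refine mul_le_mul_of_nonneg_left ?_ (by positivity)
        have h8 : (80 : ℝ) ≤ L ^ 3 := by
          have := pow_le_pow_left₀ (by norm_num) hLbig 3
          linarith
        calc 80 * L ≤ L ^ 3 * L := mul_le_mul_of_nonneg_right h8 hL0.le
          _ = L ^ 4 := by ring
    _ = L ^ (-A₀) := h6

open scoped Classical in
/-- Copy of `H68T.main_L1` (MAIN.lean) with `Mu_small_off`. -/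
theorem main_L1_off (c : ℝ) (hc : 0 < c) (A : ℝ) : ∃ K : ℝ, ∀ Q X p₁ : ℕ, Reg K Q X →
    GoodOff c Q p₁ →
    ∑ p ∈ (PC Q).filter (fun p => ¬ p₁ ∣ p.1), ∫ t in (-(Q : ℝ) ^ 7)..((Q : ℝ) ^ 7),
      ‖FF X (fun m => (hmain Q X m : ℂ) * p.2 (m : ZMod p.1)) t‖ ≤ (Real.log X) ^ (-A) := by
  obtain ⟨C, K₁, hC, hK₁⟩ := main_integral
  obtain ⟨K₂, hK₂⟩ := Mu_small_off c hc (A + 8)
  obtain ⟨K₃, hK₃⟩ := mean_value
  obtain ⟨K₄, hK₄1, hK₄⟩ := reg_log_le (64 * C) (7 + A) 1 one_pos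
  refine ⟨|K₁| + |K₂| + |K₃| + K₄ + 200 * Real.pi * C + 10, ?_⟩
  intro Q X p₁ hreg hgood
  have hpi := Real.pi_pos
  have a1 : 0 ≤ |K₁| := abs_nonneg _
  have a2 : 0 ≤ |K₂| := abs_nonneg _
  have a3 : 0 ≤ |K₃| := abs_nonneg _
  have b1 : K₁ ≤ |K₁| := le_abs_self _
  have b2 : K₂ ≤ |K₂| := le_abs_self _
  have b3 : K₃ ≤ |K₃| := le_abs_self _
  have a4 : 0 ≤ 200 * Real.pi * C := by positivity
  have hKpos : 0 ≤ |K₁| + |K₂| + |K₃| + K₄ + 200 * Real.pi * C + 10 := by linarith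
  have r1 : Reg K₁ Q X := hreg.mono hKpos (by linarith)
  have r2 : Reg K₂ Q X := hreg.mono hKpos (by linarith)
  have r3 : Reg K₃ Q X := hreg.mono hKpos (by linarith)
  have r4 : Reg K₄ Q X := hreg.mono hKpos (by linarith)
  have r5 : Reg (200 * Real.pi * C + 10) Q X := hreg.mono hKpos (by linarith)
  set L : ℝ := Real.log X with hL
  have hLe : Real.exp (200 * Real.pi * C + 10) ≤ L := r5.logX_ge (by linarith)
  have hL10 : 200 * Real.pi * C + 10 ≤ L := by
    have := Real.add_one_le_exp (200 * Real.pi * C + 10)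
    linarith
  have hL0 : 0 < L := by linarith
  have hX : 1 ≤ X := r5.X_pos (by linarith)
  have hQ10 : (10 : ℝ) ≤ Q := by
    have := r5.Q_ge (by linarith)
    linarith
  have hQ0 : (0 : ℝ) < Q := by linarith
  have hQ4 : 64 * C * L ^ (7 + A) ≤ Q := by
    have := hK₄ Q X r4
    simpa using this
  set T₁ : ℝ := (Q : ℝ) ^ 7 with hT₁
  set T₂ : ℝ := (Q : ℝ) ^ 10 with hT₂
  set T₃ : ℝ := (Q : ℝ) ^ 11 with hT₃
  have hT₁0 : 0 < T₁ := by positivity
  have hT₂0 : 0 < T₂ := by positivity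
  have h12 : T₁ ≤ T₂ := pow_le_pow_right₀ (by linarith) (by norm_num)
  have h3 : T₁ + T₂ ≤ T₃ := by
    have : T₃ = T₂ * Q := by rw [hT₃, hT₂]; ring
    rw [this]
    nlinarith
  have hlog : 1 + Real.log (60 * X) ≤ 2 * L := by
    have hX0 : (X : ℝ) ≠ 0 := by positivity
    rw [Real.log_mul (by norm_num) hX0, ← hL]
    have : Real.log 60 ≤ 5 := by
      rw [Real.log_le_iff_le_exp (by norm_num)]
      have h1 : (2.7 : ℝ) ≤ Real.exp 1 := by
        have := Real.exp_one_gt_d9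
        linarith
      have h2 : Real.exp 5 = Real.exp 1 ^ 5 := by rw [← Real.exp_nat_mul]; norm_num
      rw [h2]
      have h3 : (2.7 : ℝ) ^ 5 ≤ Real.exp 1 ^ 5 := pow_le_pow_left₀ (by norm_num) h1 5
      have h4 : (60 : ℝ) ≤ 2.7 ^ 5 := by norm_num
      linarith
    linarith
  have key : ∀ p ∈ (PC Q).filter (fun p => ¬ p₁ ∣ p.1), ∫ t in (-T₁)..T₁,
      ‖FF X (fun m => (hmain Q X m : ℂ) * p.2 (m : ZMod p.1)) t‖ ≤
      C * L ^ (4 : ℝ) * (Real.pi * (L ^ (-(A + 8)) * ∫ t in (-T₃)..T₃, ‖Mu X p t‖ ^ 2) +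
        2 / T₂ * (2 * T₁ * (2 * L) ^ 3)) := by
    intro p hp'
    obtain ⟨hp, hpp⟩ := mem_filter.mp hp'
    have hp1 : 1 ≤ p.1 := (mem_PC.mp hp).1
    have hcont := (continuous_Mu X p).norm
    have hMi := main_int (fun t => ‖Mu X p t‖) hcont (fun t => norm_nonneg _) (2 * L)
      (L ^ (-(A + 8))) T₁ T₂ T₃ (fun t => (Mu_le X p t hX).trans hlog)
      (fun t ht => hK₂ Q X p₁ r2 hgood p hp hpp t ht) hT₁0.le hT₂0 h3
    have hi : IntervalIntegrable (fun t => C * L ^ (4 : ℝ) *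
        ∫ τ : ℝ, (1 + τ ^ 2)⁻¹ * ‖Mu X p (t + τ)‖ ^ 3) volume (-T₁) T₁ := by
      refine IntervalIntegrable.const_mul ?_ _
      rw [intervalIntegrable_iff_integrableOn_Ioc_of_le (by linarith)]
      have hint : Integrable (Function.uncurry fun t τ : ℝ => (1 + τ ^ 2)⁻¹ *
          ‖Mu X p (t + τ)‖ ^ 3) ((volume.restrict (Set.Ioc (-T₁) T₁)).prod volume) := by
        have e1 : Integrable (fun z : ℝ × ℝ => (1 : ℝ) * (1 + z.2 ^ 2)⁻¹)
            ((volume.restrict (Set.Ioc (-T₁) T₁)).prod volume) :=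
          (integrable_const (1 : ℝ)).mul_prod integrable_inv_one_add_sq
        have hcM : Continuous (fun z : ℝ × ℝ => ‖Mu X p (z.1 + z.2)‖ ^ 3) :=
          ((continuous_Mu X p).comp (continuous_fst.add continuous_snd)).norm.pow 3
        have e2 := e1.mul_bdd (g := fun z : ℝ × ℝ => ‖Mu X p (z.1 + z.2)‖ ^ 3) (c := (2 * L) ^ 3)
          hcM.aestronglyMeasurable (Filter.Eventually.of_forall fun z => by
            rw [Real.norm_of_nonneg (by positivity)]
            exact pow_le_pow_left₀ (norm_nonneg _) ((Mu_le X p _ hX).trans hlog) 3)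
        refine e2.congr (Filter.Eventually.of_forall fun z => ?_)
        simp [Function.uncurry]
      exact hint.integral_prod_left
    have hstep : ∫ t in (-T₁)..T₁,
        ‖FF X (fun m => (hmain Q X m : ℂ) * p.2 (m : ZMod p.1)) t‖ ≤
        ∫ t in (-T₁)..T₁, C * L ^ (4 : ℝ) *
          ∫ τ : ℝ, (1 + τ ^ 2)⁻¹ * ‖Mu X p (t + τ)‖ ^ 3 := by
      refine intervalIntegral.integral_mono_on (by linarith)
        ((main_cont_FF X _).norm.intervalIntegrable _ _) hi fun t _ => ?_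
      exact hK₁ Q X r1 p hp1 t
    refine hstep.trans ?_
    rw [intervalIntegral.integral_const_mul]
    exact mul_le_mul_of_nonneg_left hMi (by positivity)
  refine (Finset.sum_le_sum key).trans ?_
  rw [← Finset.mul_sum, Finset.sum_add_distrib, ← Finset.mul_sum, ← Finset.mul_sum,
    Finset.sum_const, nsmul_eq_mul]
  have hT₃0 : 0 ≤ T₃ := by positivity
  have hmv : ∑ p ∈ (PC Q).filter (fun p => ¬ p₁ ∣ p.1), ∫ t in (-T₃)..T₃, ‖Mu X p t‖ ^ 2 ≤ 100 * L ^ (3 : ℝ) :=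
    (Finset.sum_le_sum_of_subset_of_nonneg (Finset.filter_subset _ _)
      fun p _ _ => intervalIntegral.integral_nonneg (by linarith) fun t _ => by positivity).trans
      (hK₃ Q X r3)
  have hcard : ((((PC Q).filter (fun p => ¬ p₁ ∣ p.1)).card : ℕ) : ℝ) ≤ (Q : ℝ) ^ 2 := by
    have h1 := card_PC_le Q
    have h2 := Finset.card_filter_le (PC Q) (fun p => ¬ p₁ ∣ p.1)
    exact_mod_cast h2.trans h1
  have hpart1 : C * L ^ (4 : ℝ) * (Real.pi * (L ^ (-(A + 8)) *
      ∑ p ∈ (PC Q).filter (fun p => ¬ p₁ ∣ p.1), ∫ t in (-T₃)..T₃, ‖Mu X p t‖ ^ 2)) ≤ L ^ (-A) / 2 := by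
    calc C * L ^ (4 : ℝ) * (Real.pi * (L ^ (-(A + 8)) *
          ∑ p ∈ (PC Q).filter (fun p => ¬ p₁ ∣ p.1), ∫ t in (-T₃)..T₃, ‖Mu X p t‖ ^ 2))
        ≤ C * L ^ (4 : ℝ) * (Real.pi * (L ^ (-(A + 8)) * (100 * L ^ (3 : ℝ)))) := by
          gcongr
      _ = 100 * Real.pi * C * L ^ (-A - 1) := by
          have : L ^ (-A - 1) = L ^ (4 : ℝ) * L ^ (-(A + 8)) * L ^ (3 : ℝ) := by
            rw [← Real.rpow_add hL0, ← Real.rpow_add hL0]
            congr 1
            ring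
          rw [this]
          ring
      _ = (100 * Real.pi * C / L) * L ^ (-A) := by
          rw [Real.rpow_sub_one hL0.ne']
          ring
      _ ≤ (1 / 2) * L ^ (-A) := by
          refine mul_le_mul_of_nonneg_right ?_ (by positivity)
          rw [div_le_iff₀ hL0]
          linarith
      _ = L ^ (-A) / 2 := by ring
  have hpart2 : C * L ^ (4 : ℝ) * ((((PC Q).filter (fun p => ¬ p₁ ∣ p.1)).card : ℝ) * (2 / T₂ * (2 * T₁ * (2 * L) ^ 3))) ≤
      L ^ (-A) / 2 := by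
    calc C * L ^ (4 : ℝ) * ((((PC Q).filter (fun p => ¬ p₁ ∣ p.1)).card : ℝ) * (2 / T₂ * (2 * T₁ * (2 * L) ^ 3)))
        ≤ C * L ^ (4 : ℝ) * ((Q : ℝ) ^ 2 * (2 / T₂ * (2 * T₁ * (2 * L) ^ 3))) := by
          gcongr
      _ = 32 * C * L ^ (7 : ℝ) / Q := by
          have e1 : L ^ (7 : ℝ) = L ^ (4 : ℝ) * L ^ 3 := by
            rw [← Real.rpow_natCast L 3, ← Real.rpow_add hL0]
            norm_num
          rw [e1, hT₁, hT₂]
          field_simp
          ring
      _ = (64 * C * L ^ (7 + A)) / Q * (L ^ (-A) / 2) := by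
          rw [Real.rpow_add hL0, Real.rpow_neg hL0.le]
          have : L ^ A ≠ 0 := (Real.rpow_pos_of_pos hL0 A).ne'
          field_simp
          ring
      _ ≤ 1 * (L ^ (-A) / 2) := by
          refine mul_le_mul_of_nonneg_right ?_ (by positivity)
          rw [div_le_one hQ0]
          exact hQ4
      _ = L ^ (-A) / 2 := one_mul _
  rw [mul_add]
  linarith

end Pool.Agent.Lib.H13C
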