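import Pool.Agent.Lib.H13C.Defs
import Pool.Agent.Lib.H68T.RegL

/-!
# Chunk P3a: the regime `RegP` (copy of H68T/RegL.lean)
-/

open Real

namespace Pool.Agent.Lib.H13C

open Pool.Agent.Lib.H68T

theorem RegP.mono {K K' : ℝ} {Q X : ℕ} (h : RegP K Q X) (h0 : 0 ≤ K) (hK : K' ≤ K) :
    RegP K' Q X := by
  obtain ⟨h1, h2, h3⟩ := h
  have hll : 0 ≤ log (log X) := h0.trans h1
  have hQ : 0 ≤ log Q := by positivity
  exact ⟨hK.trans h1, (mul_le_mul_of_nonneg_right hK hll).trans h2,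
    (mul_le_mul_of_nonneg_right hK hQ).trans h3⟩

theorem RegP.loglog {K : ℝ} {Q X : ℕ} (h : RegP K Q X) : K ≤ log (log X) := h.1

theorem RegP.logX_ge {K : ℝ} {Q X : ℕ} (h : RegP K Q X) (hK : 0 < K) : exp K ≤ log X := by
  have h1 : 0 < log (log X) := hK.trans_le h.1
  have h2 : 0 < log X := by
    by_contra hc
    push Not at hc
    have h3 : (0:ℝ) ≤ log X := by positivity
    have h4 : log (X:ℝ) = 0 := le_antisymm hc h3
    rw [h4] at h1
    simp at h1
  exact (Real.le_log_iff_exp_le h2).mp h.1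

theorem RegP.logX_pos {K : ℝ} {Q X : ℕ} (h : RegP K Q X) (hK : 0 < K) : 0 < log X :=
  (exp_pos K).trans_le (h.logX_ge hK)

theorem RegP.X_pos {K : ℝ} {Q X : ℕ} (h : RegP K Q X) (hK : 0 < K) : 0 < X := by
  rcases Nat.eq_zero_or_pos X with h0 | h0
  · have := h.logX_pos hK
    rw [h0] at this
    simp at this
  · exact h0

theorem RegP.logX_ge_one {K : ℝ} {Q X : ℕ} (h : RegP K Q X) (hK : 0 < K) : 1 ≤ log X := by
  have h1 := h.logX_ge hK
  have h2 : (1:ℝ) ≤ exp K := Real.one_le_exp hK.le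
  linarith

theorem RegP.X_ge {K : ℝ} {Q X : ℕ} (h : RegP K Q X) (hK : 0 < K) : K ≤ X := by
  have h1 := h.logX_ge hK
  have h2 : K + 1 ≤ exp K := Real.add_one_le_exp K
  have h3 : log X ≤ X := (Real.log_le_sub_one_of_pos (by exact_mod_cast h.X_pos hK)).trans
    (by linarith)
  linarith

/-- `(log X)^K ≤ Q` -/
theorem RegP.pow_le {K : ℝ} {Q X : ℕ} (h : RegP K Q X) (hK : 0 < K) :
    (log X) ^ K ≤ (Q : ℝ) := by
  have h1 := h.logX_pos hK
  have h2 : 0 < log (log X) := hK.trans_le h.1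
  have h3 : 0 < log Q := lt_of_lt_of_le (mul_pos hK h2) h.2.1
  have hQ : (0:ℝ) < Q := by
    rcases Nat.eq_zero_or_pos Q with h0 | h0
    · rw [h0] at h3; simp at h3
    · exact_mod_cast h0
  rw [Real.rpow_def_of_pos h1, ← Real.le_log_iff_exp_le hQ]
  linarith [h.2.1, mul_comm K (log (log X))]

theorem RegP.logQ_ge {K : ℝ} {Q X : ℕ} (h : RegP K Q X) (hK : 1 ≤ K) : K ≤ log Q := by
  have h1 : 1 ≤ log (log X) := hK.trans h.1
  have := h.2.1
  nlinarith

theorem RegP.Q_ge {K : ℝ} {Q X : ℕ} (h : RegP K Q X) (hK : 1 ≤ K) : K ≤ Q := by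
  have h1 := h.logQ_ge hK
  have h3 : log Q ≤ Q := by
    rcases Nat.eq_zero_or_pos Q with h0 | h0
    · rw [h0]; simp
    · exact (Real.log_le_sub_one_of_pos (by exact_mod_cast h0)).trans (by linarith)
  linarith

theorem RegP.Q_pos {K : ℝ} {Q X : ℕ} (h : RegP K Q X) (hK : 1 ≤ K) : 0 < Q := by
  have h1 := h.Q_ge hK
  have h2 : (0:ℝ) < Q := by linarith
  exact_mod_cast h2

/-- `K log Q ≤ log X` -/
theorem RegP.logQ_le {K : ℝ} {Q X : ℕ} (h : RegP K Q X) (hK : 1 ≤ K) :
    K * log Q ≤ log X := h.2.2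

/-- Absorb constants and powers of `log X` into a power of `Q`. -/
theorem regP_log_le (C A ε : ℝ) (hε : 0 < ε) : ∃ K : ℝ, 1 ≤ K ∧ ∀ Q X : ℕ, RegP K Q X →
    C * (log X) ^ A ≤ (Q : ℝ) ^ ε := by
  refine ⟨1 + |A| / ε + (1 + |C|) / ε, by
    have : 0 ≤ |A| / ε := by positivity
    have : 0 ≤ (1 + |C|) / ε := by positivity
    linarith, fun Q X h => ?_⟩
  set K := 1 + |A| / ε + (1 + |C|) / ε with hKdef
  have hA : 0 ≤ |A| / ε := by positivity
  have hC : 0 ≤ (1 + |C|) / ε := by positivity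
  have hK : 1 ≤ K := by rw [hKdef]; linarith
  have hK0 : 0 < K := by linarith
  have hlX := h.logX_pos hK0
  have hll : 1 ≤ log (log X) := hK.trans h.1
  have hQ : (0:ℝ) < Q := by exact_mod_cast h.Q_pos hK
  rcases le_or_gt C 0 with hC0 | hC0
  · have : C * (log X) ^ A ≤ 0 :=
      mul_nonpos_of_nonpos_of_nonneg hC0 (Real.rpow_nonneg hlX.le _)
    exact this.trans (Real.rpow_nonneg hQ.le _)
  rw [Real.rpow_def_of_pos hlX, Real.rpow_def_of_pos hQ]
  have h1 : C ≤ exp (log (log X) * (1 + |C|)) := by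
    have : C ≤ exp C := by linarith [Real.add_one_le_exp C]
    refine this.trans (Real.exp_le_exp.mpr ?_)
    have : C ≤ |C| := le_abs_self C
    nlinarith [abs_nonneg C]
  calc C * exp (log (log X) * A) ≤ exp (log (log X) * (1 + |C|)) * exp (log (log X) * A) :=
        mul_le_mul_of_nonneg_right h1 (exp_pos _).le
    _ = exp (log (log X) * (1 + |C| + A)) := by rw [← Real.exp_add]; ring_nf
    _ ≤ exp (log Q * ε) := by
        apply Real.exp_le_exp.mpr
        have h2 : K * log (log X) ≤ log Q := h.2.1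
        have h3 : (1 + |C| + A) ≤ K * ε := by
          rw [hKdef]
          have e1 : |A| / ε * ε = |A| := div_mul_cancel₀ _ hε.ne'
          have e2 : (1 + |C|) / ε * ε = 1 + |C| := div_mul_cancel₀ _ hε.ne'
          have : A ≤ |A| := le_abs_self A
          nlinarith
        calc log (log X) * (1 + |C| + A) ≤ log (log X) * (K * ε) :=
              mul_le_mul_of_nonneg_left h3 (by linarith)
          _ = (K * log (log X)) * ε := by ring
          _ ≤ log Q * ε := mul_le_mul_of_nonneg_right h2 hε.le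

/-- Absorb constants and powers of `Q` into a power of `X`. -/
theorem regP_pow_le (C A ε : ℝ) (hε : 0 < ε) : ∃ K : ℝ, 1 ≤ K ∧ ∀ Q X : ℕ, RegP K Q X →
    C * (Q : ℝ) ^ A ≤ (X : ℝ) ^ ε := by
  refine ⟨1 + |A| / ε + (1 + |C|) / ε, by
    have : 0 ≤ |A| / ε := by positivity
    have : 0 ≤ (1 + |C|) / ε := by positivity
    linarith, fun Q X h => ?_⟩
  set K := 1 + |A| / ε + (1 + |C|) / ε with hKdef
  have hA : 0 ≤ |A| / ε := by positivity
  have hC : 0 ≤ (1 + |C|) / ε := by positivity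
  have hK : 1 ≤ K := by rw [hKdef]; linarith
  have hK0 : 0 < K := by linarith
  have hQ : (0:ℝ) < Q := by exact_mod_cast h.Q_pos hK
  have hX : (0:ℝ) < X := by exact_mod_cast h.X_pos hK0
  have hlQ : 1 ≤ log Q := hK.trans (h.logQ_ge hK)
  rcases le_or_gt C 0 with hC0 | hC0
  · have : C * (Q:ℝ) ^ A ≤ 0 :=
      mul_nonpos_of_nonpos_of_nonneg hC0 (Real.rpow_nonneg hQ.le _)
    exact this.trans (Real.rpow_nonneg hX.le _)
  rw [Real.rpow_def_of_pos hQ, Real.rpow_def_of_pos hX]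
  have h1 : C ≤ exp (log Q * (1 + |C|)) := by
    have : C ≤ exp C := by linarith [Real.add_one_le_exp C]
    refine this.trans (Real.exp_le_exp.mpr ?_)
    have : C ≤ |C| := le_abs_self C
    nlinarith [abs_nonneg C]
  calc C * exp (log Q * A) ≤ exp (log Q * (1 + |C|)) * exp (log Q * A) :=
        mul_le_mul_of_nonneg_right h1 (exp_pos _).le
    _ = exp (log Q * (1 + |C| + A)) := by rw [← Real.exp_add]; ring_nf
    _ ≤ exp (log X * ε) := by
        apply Real.exp_le_exp.mpr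
        have h2 : K * log Q ≤ log X := h.logQ_le hK
        have h3 : (1 + |C| + A) ≤ K * ε := by
          rw [hKdef]
          have e1 : |A| / ε * ε = |A| := div_mul_cancel₀ _ hε.ne'
          have e2 : (1 + |C|) / ε * ε = 1 + |C| := div_mul_cancel₀ _ hε.ne'
          have : A ≤ |A| := le_abs_self A
          nlinarith
        calc log Q * (1 + |C| + A) ≤ log Q * (K * ε) :=
              mul_le_mul_of_nonneg_left h3 (by linarith)
          _ = (K * log Q) * ε := by ring
          _ ≤ log X * ε := mul_le_mul_of_nonneg_right h2 hε.le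

end Pool.Agent.Lib.H13C
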