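import Pool.Agent.Lib.H13C.P3a
import Pool.Agent.Lib.H68T.HDEC
import Pool.Agent.Lib.H5C.HDEC

/-!
# Chunk P3b: Heath-Brown decomposition in the regime `RegP`
-/

open Finset

namespace Pool.Agent.Lib.H13C

open Pool.Agent.Lib.H68T

/-- Copy of `H68T.decomposition` (HDEC.lean, with its lemmas `hd_err`, `hd_bounds`) with `RegP`,
`regP_log_le`, `regP_pow_le` in place of `Reg`, `reg_log_le`, `reg_pow_le` (the other lemmas of
HDEC.lean can be used as they are). -/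
theorem decompositionP : ∃ K : ℝ, ∀ Q X : ℕ, RegP K Q X → ∃ α : ℕ → ℕ → ℝ,
    (∀ j ∈ range 2, ∑ a ∈ Icc 1 (60 * X), |α j a| / a ≤ (Real.log X) ^ (7 : ℝ)) ∧
    ∀ (p : Σ r : ℕ, DirichletCharacter ℂ r), 1 ≤ p.1 → ∀ t : ℝ,
      FL X p t = FF X (fun m => (hmain Q X m : ℂ) * p.2 (m : ZMod p.1)) t +
        ∑ j ∈ range 2, ∑ a ∈ Icc 1 (60 * X), (α j a : ℂ) * p.2 (a : ZMod p.1) *
          (a : ℂ) ^ (-(1 + t * Complex.I)) * Long Q X p j a t := by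
  obtain ⟨K, hK⟩ := H5C.decompositionP
  exact ⟨K, fun Q X h => hK Q X h⟩

end Pool.Agent.Lib.H13C
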