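import Pool.Agent.Lib.H13C.P3a
import Pool.Agent.Lib.H68T.LONG
import Pool.Agent.Lib.H5C.LONG

/-!
# Chunk P3c: long smooth sums in the regime `RegP`
-/

open Finset

namespace Pool.Agent.Lib.H13C

open Pool.Agent.Lib.H68T

/-- Copy of `H68T.long_small` (LONG1.lean) with `RegP`. -/
theorem long_smallP : ∃ K : ℝ, ∀ Q X : ℕ, RegP K Q X → ∀ p ∈ PC Q, p ≠ p0 → ∀ j ∈ range 2,
    ∀ a : ℕ, 1 ≤ a → ∀ t : ℝ, |t| ≤ (Q : ℝ) ^ 7 → ‖Long Q X p j a t‖ ≤ (Q : ℝ) ^ (-11 : ℝ) := by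
  obtain ⟨K, hK⟩ := H5C.long_smallP
  exact ⟨K, fun Q X h => hK Q X h⟩

end Pool.Agent.Lib.H13C
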