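import Pool.Agent.Lib.H13C.P3a
import Pool.Agent.Lib.H68T.MV
import Pool.Agent.Lib.H68T.MAINI
import Pool.Agent.Lib.H5C.MV
import Pool.Agent.Lib.H5C.MAINI

/-!
# Chunk P3d: mean value theorem and separation of variables in the regime `RegP`
-/

open Finset MeasureTheory

namespace Pool.Agent.Lib.H13C

open Pool.Agent.Lib.H68T

/-- Copy of `H68T.mean_value` (MV.lean) with `RegP`. -/
theorem mean_valueP : ∃ K : ℝ, ∀ Q X : ℕ, RegP K Q X →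
    ∑ p ∈ PC Q, ∫ t in (-(Q : ℝ) ^ 11)..((Q : ℝ) ^ 11), ‖Mu X p t‖ ^ 2 ≤
      100 * (Real.log X) ^ (3 : ℝ) := by
  obtain ⟨K, hK⟩ := H5C.mean_valueP
  exact ⟨K, fun Q X h => hK Q X h⟩

/-- Copy of `H68T.main_integral` (MAINI.lean, with its lemmas which mention `Reg`) with `RegP`. -/
theorem main_integralP : ∃ C K : ℝ, 0 < C ∧ ∀ Q X : ℕ, RegP K Q X →
    ∀ p : Σ r : ℕ, DirichletCharacter ℂ r, 1 ≤ p.1 → ∀ t : ℝ,
    ‖FF X (fun m => (hmain Q X m : ℂ) * p.2 (m : ZMod p.1)) t‖ ≤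
      C * (Real.log X) ^ (4 : ℝ) * ∫ τ : ℝ, (1 + τ ^ 2)⁻¹ * ‖Mu X p (t + τ)‖ ^ 3 := by
  obtain ⟨C, K, hC, hK⟩ := H5C.main_integralP
  exact ⟨C, K, hC, fun Q X h => hK Q X h⟩

end Pool.Agent.Lib.H13C
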