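import Pool.Agent.Lib.H13C.P3b
import Pool.Agent.Lib.H13C.P3c
import Pool.Agent.Lib.H13C.P3d
import Pool.Agent.Lib.H68T.MAIN
import Pool.Agent.Lib.H68T.D2A
import Pool.Agent.Lib.H5C.RegP

/-!
# Chunk P3e: the `L¹` bound for all characters, large conductors
-/

open Finset MeasureTheory

namespace Pool.Agent.Lib.H13C

open Pool.Agent.Lib.H68T

theorem p3e_log60 (X : ℕ) (hX : 1 ≤ X) (h : 10 ≤ Real.log X) :
    1 + Real.log (60 * X) ≤ 2 * Real.log X := by
  have hX0 : (X : ℝ) ≠ 0 := by positivity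
  rw [Real.log_mul (by norm_num) hX0]
  have : Real.log 60 ≤ 5 := by
    rw [Real.log_le_iff_le_exp (by norm_num)]
    have h1 : (2.7 : ℝ) ≤ Real.exp 1 := by
      have := Real.exp_one_gt_d9
      linarith
    have h2 : Real.exp 5 = Real.exp 1 ^ 5 := by rw [← Real.exp_nat_mul]; norm_num
    rw [h2]
    have h3 : (2.7 : ℝ) ^ 5 ≤ Real.exp 1 ^ 5 := pow_le_pow_left₀ (by norm_num) h1 5
    have h4 : (60 : ℝ) ≤ 2.7 ^ 5 := by norm_num
    linarith
  linarith

/-- the trivial bound for the sums over primes -/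
theorem p3e_FL_le (X : ℕ) (p : Σ r : ℕ, DirichletCharacter ℂ r) (t : ℝ) (hX : 1 ≤ X) :
    ‖FL X p t‖ ≤ Real.log (60 * X) * (1 + Real.log (60 * X)) := by
  have hX1 : (1 : ℝ) ≤ X := by exact_mod_cast hX
  have hlog : 0 ≤ Real.log (60 * X) := Real.log_nonneg (by linarith)
  unfold FL FF
  have hterm : ∀ m ∈ Icc 1 (60 * X), ‖((ArithmeticFunction.vonMangoldt m : ℂ) * p.2 (m : ZMod p.1)) *
      (v X m : ℂ) * (m : ℂ) ^ (-(1 + t * Complex.I))‖ ≤ Real.log (60 * X) * (m : ℝ)⁻¹ := by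
    intro m hm
    obtain ⟨hm1, hm2⟩ := mem_Icc.mp hm
    have hm0 : (0 : ℝ) < m := by exact_mod_cast hm1
    rw [norm_mul, norm_mul, norm_mul, Complex.norm_real, Complex.norm_real,
      Real.norm_of_nonneg ArithmeticFunction.vonMangoldt_nonneg,
      Real.norm_of_nonneg (BPS_v_nonneg X m)]
    have e1 : ‖(m : ℂ) ^ (-(1 + t * Complex.I))‖ = (m : ℝ)⁻¹ := by
      rw [Complex.norm_natCast_cpow_of_pos (by omega)]
      simp [Real.rpow_neg_one]
    rw [e1]
    have e2 : ‖p.2 (m : ZMod p.1)‖ ≤ 1 := DirichletCharacter.norm_le_one _ _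
    have e3 : ArithmeticFunction.vonMangoldt m ≤ Real.log (60 * X) := by
      refine ArithmeticFunction.vonMangoldt_le_log.trans ?_
      apply Real.log_le_log hm0
      exact_mod_cast hm2
    have e4 := BPS_v_le_one X m
    have e5 := BPS_v_nonneg X m
    calc ArithmeticFunction.vonMangoldt m * ‖p.2 (m : ZMod p.1)‖ * v X m * (m : ℝ)⁻¹
        ≤ Real.log (60 * X) * 1 * 1 * (m : ℝ)⁻¹ := by
          gcongr
      _ = Real.log (60 * X) * (m : ℝ)⁻¹ := by ring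
  refine (norm_sum_le _ _).trans ((Finset.sum_le_sum hterm).trans ?_)
  rw [← Finset.mul_sum]
  refine mul_le_mul_of_nonneg_left ?_ hlog
  have := MAINI_harm (60 * X)
  push_cast at this
  exact this

/-- the main parts -/
theorem p3e_main : ∃ C K : ℝ, 0 < C ∧ 10 ≤ K ∧ ∀ Q X : ℕ, RegP K Q X →
    ∑ p ∈ PC Q, ∫ t in (-1 : ℝ)..1,
      ‖FF X (fun m => (hmain Q X m : ℂ) * p.2 (m : ZMod p.1)) t‖ ≤
        C * (Real.log X) ^ (8 : ℝ) := by
  obtain ⟨C, K₁, hC, hK₁⟩ := main_integralP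
  obtain ⟨K₃, hK₃⟩ := mean_valueP
  refine ⟨200 * Real.pi * C + 32 * C, |K₁| + |K₃| + 10, by positivity, by
    have a1 : 0 ≤ |K₁| := abs_nonneg _
    have a3 : 0 ≤ |K₃| := abs_nonneg _
    linarith, ?_⟩
  intro Q X hreg
  have hpi := Real.pi_pos
  have a1 : 0 ≤ |K₁| := abs_nonneg _
  have a3 : 0 ≤ |K₃| := abs_nonneg _
  have b1 : K₁ ≤ |K₁| := le_abs_self _
  have b3 : K₃ ≤ |K₃| := le_abs_self _
  have hKpos : 0 ≤ |K₁| + |K₃| + 10 := by linarith
  have r1 : RegP K₁ Q X := H5C.RegP.mono hreg hKpos (by linarith)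
  have r3 : RegP K₃ Q X := H5C.RegP.mono hreg hKpos (by linarith)
  have r5 : H5C.RegP 10 Q X := H5C.RegP.mono hreg hKpos (by linarith)
  set L : ℝ := Real.log X with hL
  have hL10 : 10 ≤ L := by
    have h1 := r5.logX_ge (by norm_num)
    have := Real.add_one_le_exp (10 : ℝ)
    linarith
  have hL0 : 0 < L := by linarith
  have hX : 1 ≤ X := r5.X_pos (by norm_num)
  have hQ10 : (10 : ℝ) ≤ Q := r5.Q_ge (by norm_num)
  have hQ0 : (0 : ℝ) < Q := by linarith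
  set T₂ : ℝ := (Q : ℝ) ^ 10 with hT₂
  set T₃ : ℝ := (Q : ℝ) ^ 11 with hT₃
  have hT₂0 : 0 < T₂ := by positivity
  have h12 : 1 ≤ T₂ := one_le_pow₀ (by linarith)
  have h3 : 1 + T₂ ≤ T₃ := by
    have : T₃ = T₂ * Q := by rw [hT₃, hT₂]; ring
    rw [this]
    nlinarith
  have hlog : 1 + Real.log (60 * X) ≤ 2 * L := p3e_log60 X hX hL10
  have key : ∀ p ∈ PC Q, ∫ t in (-1 : ℝ)..1,
      ‖FF X (fun m => (hmain Q X m : ℂ) * p.2 (m : ZMod p.1)) t‖ ≤
      C * L ^ (4 : ℝ) * (Real.pi * ((2 * L) * ∫ t in (-T₃)..T₃, ‖Mu X p t‖ ^ 2) +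
        2 / T₂ * (2 * 1 * (2 * L) ^ 3)) := by
    intro p hp
    have hp1 : 1 ≤ p.1 := (mem_PC.mp hp).1
    have hcont := (continuous_Mu X p).norm
    have hMi := main_int (fun t => ‖Mu X p t‖) hcont (fun t => norm_nonneg _) (2 * L)
      (2 * L) 1 T₂ T₃ (fun t => (Mu_le X p t hX).trans hlog)
      (fun t _ => (Mu_le X p t hX).trans hlog) zero_le_one hT₂0 h3
    have hi : IntervalIntegrable (fun t => C * L ^ (4 : ℝ) *
        ∫ τ : ℝ, (1 + τ ^ 2)⁻¹ * ‖Mu X p (t + τ)‖ ^ 3) volume (-1) 1 := by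
      refine IntervalIntegrable.const_mul ?_ _
      rw [intervalIntegrable_iff_integrableOn_Ioc_of_le (by linarith)]
      have hint : Integrable (Function.uncurry fun t τ : ℝ => (1 + τ ^ 2)⁻¹ *
          ‖Mu X p (t + τ)‖ ^ 3) ((volume.restrict (Set.Ioc (-1 : ℝ) 1)).prod volume) := by
        have e1 : Integrable (fun z : ℝ × ℝ => (1 : ℝ) * (1 + z.2 ^ 2)⁻¹)
            ((volume.restrict (Set.Ioc (-1 : ℝ) 1)).prod volume) :=
          (integrable_const (1 : ℝ)).mul_prod integrable_inv_one_add_sq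
        have hcM : Continuous (fun z : ℝ × ℝ => ‖Mu X p (z.1 + z.2)‖ ^ 3) :=
          ((continuous_Mu X p).comp (continuous_fst.add continuous_snd)).norm.pow 3
        have e2 := e1.mul_bdd (g := fun z : ℝ × ℝ => ‖Mu X p (z.1 + z.2)‖ ^ 3) (c := (2 * L) ^ 3)
          hcM.aestronglyMeasurable (Filter.Eventually.of_forall fun z => by
            rw [Real.norm_of_nonneg (by positivity)]
            exact pow_le_pow_left₀ (norm_nonneg _) ((Mu_le X p _ hX).trans hlog) 3)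
        refine e2.congr (Filter.Eventually.of_forall fun z => ?_)
        simp [Function.uncurry]
      exact hint.integral_prod_left
    have hstep : ∫ t in (-1 : ℝ)..1,
        ‖FF X (fun m => (hmain Q X m : ℂ) * p.2 (m : ZMod p.1)) t‖ ≤
        ∫ t in (-1 : ℝ)..1, C * L ^ (4 : ℝ) *
          ∫ τ : ℝ, (1 + τ ^ 2)⁻¹ * ‖Mu X p (t + τ)‖ ^ 3 := by
      refine intervalIntegral.integral_mono_on (by linarith)
        ((main_cont_FF X _).norm.intervalIntegrable _ _) hi fun t _ => ?_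
      exact hK₁ Q X r1 p hp1 t
    refine hstep.trans ?_
    rw [intervalIntegral.integral_const_mul]
    exact mul_le_mul_of_nonneg_left hMi (by positivity)
  refine (Finset.sum_le_sum key).trans ?_
  rw [← Finset.mul_sum, Finset.sum_add_distrib, ← Finset.mul_sum, ← Finset.mul_sum,
    Finset.sum_const, nsmul_eq_mul]
  have hmv := hK₃ Q X r3
  have hcard : ((PC Q).card : ℝ) ≤ (Q : ℝ) ^ 2 := by exact_mod_cast card_PC_le Q
  have hpart1 : C * L ^ (4 : ℝ) * (Real.pi * ((2 * L) *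
      ∑ p ∈ PC Q, ∫ t in (-T₃)..T₃, ‖Mu X p t‖ ^ 2)) ≤ 200 * Real.pi * C * L ^ (8 : ℝ) := by
    calc C * L ^ (4 : ℝ) * (Real.pi * ((2 * L) *
          ∑ p ∈ PC Q, ∫ t in (-T₃)..T₃, ‖Mu X p t‖ ^ 2))
        ≤ C * L ^ (4 : ℝ) * (Real.pi * ((2 * L) * (100 * L ^ (3 : ℝ)))) := by
          gcongr
      _ = 200 * Real.pi * C * L ^ (8 : ℝ) := by
          have : L ^ (8 : ℝ) = L ^ (4 : ℝ) * L ^ (1 : ℝ) * L ^ (3 : ℝ) := by
            rw [← Real.rpow_add hL0, ← Real.rpow_add hL0]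
            norm_num
          rw [this, Real.rpow_one]
          ring
  have hpart2 : C * L ^ (4 : ℝ) * (((PC Q).card : ℝ) * (2 / T₂ * (2 * 1 * (2 * L) ^ 3))) ≤
      32 * C * L ^ (8 : ℝ) := by
    have e0 : (Q : ℝ) ^ 2 / T₂ ≤ 1 := by
      rw [div_le_one hT₂0]
      exact pow_le_pow_right₀ (by linarith) (by norm_num)
    calc C * L ^ (4 : ℝ) * (((PC Q).card : ℝ) * (2 / T₂ * (2 * 1 * (2 * L) ^ 3)))
        ≤ C * L ^ (4 : ℝ) * ((Q : ℝ) ^ 2 * (2 / T₂ * (2 * 1 * (2 * L) ^ 3))) := by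
          gcongr
      _ = 32 * C * (L ^ (4 : ℝ) * L ^ 3) * ((Q : ℝ) ^ 2 / T₂) := by
          ring
      _ ≤ 32 * C * (L ^ (4 : ℝ) * L ^ 3) * 1 := by gcongr
      _ = 32 * C * L ^ (7 : ℝ) := by
          have e1 : L ^ (7 : ℝ) = L ^ (4 : ℝ) * L ^ 3 := by
            rw [← Real.rpow_natCast L 3, ← Real.rpow_add hL0]
            norm_num
          rw [e1]
          ring
      _ ≤ 32 * C * L ^ (8 : ℝ) := by
          refine mul_le_mul_of_nonneg_left ?_ (by positivity)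
          exact Real.rpow_le_rpow_of_exponent_le (by linarith) (by norm_num)
  rw [mul_add]
  linarith

/-- As `H68T.main_L1` and `H68T.L1_nontrivial`, with the trivial bound `‖Mu‖ ≤ 2 log X` (`Mu_le`) in
place of `Mu_small`: `main_int` with `S = B = 2 log X`, `T₁ = 1`, `T₂ = Q^10`, `T₃ = Q^11`, then
`mean_valueP`; long parts by `long_smallP` for `p ≠ p0`. For `p = p0` the trivial bound:
`‖FL X p0 t‖ ≤ ∑_{m ≤ 60 X} Λ(m)/m ≤ log (60X) (1 + log (60X))`. -/
theorem L1_large : ∃ C K : ℝ, 0 < C ∧ ∀ Q X : ℕ, RegP K Q X →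
    ∑ p ∈ PC Q, ∫ t in (-1 : ℝ)..1, ‖FL X p t‖ ≤ (Real.log X) ^ C := by
  classical
  obtain ⟨K₁, hK₁⟩ := decompositionP
  obtain ⟨K₂, hK₂⟩ := long_smallP
  obtain ⟨C, K₃, hC, hK₃10, hK₃⟩ := p3e_main
  refine ⟨9, |K₁| + |K₂| + K₃ + C + 20, by norm_num, ?_⟩
  intro Q X hreg
  have a1 : 0 ≤ |K₁| := abs_nonneg _
  have a2 : 0 ≤ |K₂| := abs_nonneg _
  have b1 : K₁ ≤ |K₁| := le_abs_self _
  have b2 : K₂ ≤ |K₂| := le_abs_self _
  have hKpos : 0 ≤ |K₁| + |K₂| + K₃ + C + 20 := by linarith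
  have r1 : RegP K₁ Q X := H5C.RegP.mono hreg hKpos (by linarith)
  have r2 : RegP K₂ Q X := H5C.RegP.mono hreg hKpos (by linarith)
  have r3 : RegP K₃ Q X := H5C.RegP.mono hreg hKpos (by linarith)
  have r5 : H5C.RegP (C + 20) Q X := H5C.RegP.mono hreg hKpos (by linarith)
  have hX : 1 ≤ X := r5.X_pos (by linarith)
  set L : ℝ := Real.log X with hL
  have hLC : C + 20 ≤ L := by
    have h1 := r5.logX_ge (by linarith)
    have := Real.add_one_le_exp (C + 20)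
    linarith
  have hL10 : 10 ≤ L := by linarith
  have hL0 : 0 < L := by linarith
  have hQ20 : C + 20 ≤ (Q : ℝ) := r5.Q_ge (by linarith)
  have hQ0 : (0 : ℝ) < Q := by linarith
  have hQ1 : 1 ≤ Q := by exact_mod_cast hQ0
  obtain ⟨α, hα, hdec⟩ := hK₁ Q X r1
  set D : ℝ := 2 * (L ^ (7 : ℝ) * (Q : ℝ) ^ (-11 : ℝ)) with hD
  have hD0 : 0 ≤ D := by positivity
  have h1Q7 : (1 : ℝ) ≤ (Q : ℝ) ^ 7 := one_le_pow₀ (by linarith)
  have key : ∀ p ∈ (PC Q).filter (fun p => p ≠ p0), ∫ t in (-1 : ℝ)..1, ‖FL X p t‖ ≤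
      (∫ t in (-1 : ℝ)..1, ‖FF X (fun m => (hmain Q X m : ℂ) * p.2 (m : ZMod p.1)) t‖) +
        2 * D := by
    intro p hp
    obtain ⟨hp, hp0⟩ := mem_filter.mp hp
    have hp1 : 1 ≤ p.1 := (mem_PC.mp hp).1
    have hcF : Continuous (fun t => ‖FF X (fun m => (hmain Q X m : ℂ) * p.2 (m : ZMod p.1)) t‖) :=
      (main_cont_FF X _).norm
    have hcL : Continuous (fun t => ‖FL X p t‖) := (main_cont_FF X _).norm
    have h1 : ∫ t in (-1 : ℝ)..1, ‖FL X p t‖ ≤ ∫ t in (-1 : ℝ)..1,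
        (‖FF X (fun m => (hmain Q X m : ℂ) * p.2 (m : ZMod p.1)) t‖ + D) := by
      refine intervalIntegral.integral_mono_on (by linarith) (hcL.intervalIntegrable _ _)
        ((hcF.add continuous_const).intervalIntegrable _ _) fun t ht => ?_
      have ht' : |t| ≤ (Q : ℝ) ^ 7 := (abs_le.2 ⟨ht.1, ht.2⟩ : |t| ≤ 1).trans h1Q7
      rw [hdec p hp1 t]
      refine (norm_add_le _ _).trans (add_le_add le_rfl ?_)
      exact d2a_long Q X α _ _ (by positivity) hα p t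
        (fun j hj a ha => hK₂ Q X r2 p hp hp0 j hj a ha t ht')
    refine h1.trans ?_
    rw [intervalIntegral.integral_add (hcF.intervalIntegrable _ _)
      (continuous_const.intervalIntegrable _ _), intervalIntegral.integral_const, smul_eq_mul]
    refine le_of_eq ?_
    ring
  have hcard : (((PC Q).filter (fun p => p ≠ p0)).card : ℝ) ≤ (Q : ℝ) ^ 2 := by
    have h1 := card_PC_le Q
    have h2 := Finset.card_filter_le (PC Q) (fun p => p ≠ p0)
    exact_mod_cast h2.trans h1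
  have hpart1 : ∑ p ∈ (PC Q).filter (fun p => p ≠ p0), ∫ t in (-1 : ℝ)..1,
      ‖FF X (fun m => (hmain Q X m : ℂ) * p.2 (m : ZMod p.1)) t‖ ≤ C * L ^ (8 : ℝ) := by
    refine (Finset.sum_le_sum_of_subset_of_nonneg (Finset.filter_subset _ _)
      fun p _ _ => intervalIntegral.integral_nonneg (by linarith) fun t _ => norm_nonneg _).trans ?_
    exact hK₃ Q X r3
  have hpart2 : (((PC Q).filter (fun p => p ≠ p0)).card : ℝ) * (2 * D) ≤ 4 * L ^ (8 : ℝ) := by
    have e0 : (Q : ℝ) ^ 2 * (Q : ℝ) ^ (-11 : ℝ) ≤ 1 := by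
      rw [Real.rpow_neg hQ0.le]
      have h11 : (Q : ℝ) ^ (11 : ℝ) = (Q : ℝ) ^ 11 := by
        rw [← Real.rpow_natCast]
        norm_num
      rw [h11, ← div_eq_mul_inv, div_le_one (by positivity)]
      exact pow_le_pow_right₀ (by linarith) (by norm_num)
    calc (((PC Q).filter (fun p => p ≠ p0)).card : ℝ) * (2 * D)
        ≤ (Q : ℝ) ^ 2 * (2 * D) := by gcongr
      _ = 4 * L ^ (7 : ℝ) * ((Q : ℝ) ^ 2 * (Q : ℝ) ^ (-11 : ℝ)) := by
          rw [hD]
          ring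
      _ ≤ 4 * L ^ (7 : ℝ) * 1 := by gcongr
      _ ≤ 4 * L ^ (8 : ℝ) := by
          rw [mul_one]
          refine mul_le_mul_of_nonneg_left ?_ (by norm_num)
          exact Real.rpow_le_rpow_of_exponent_le (by linarith) (by norm_num)
  have hlog : 1 + Real.log (60 * X) ≤ 2 * L := p3e_log60 X hX hL10
  have hlog0 : 0 ≤ Real.log (60 * X) := by
    have hX1 : (1 : ℝ) ≤ X := by exact_mod_cast hX
    exact Real.log_nonneg (by linarith)
  have hp0 : ∫ t in (-1 : ℝ)..1, ‖FL X p0 t‖ ≤ 8 * L ^ (8 : ℝ) := by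
    have hcL : Continuous (fun t => ‖FL X p0 t‖) := (main_cont_FF X _).norm
    have h1 : ∫ t in (-1 : ℝ)..1, ‖FL X p0 t‖ ≤ ∫ t in (-1 : ℝ)..1, (4 * L ^ 2 : ℝ) := by
      refine intervalIntegral.integral_mono_on (by linarith) (hcL.intervalIntegrable _ _)
        (continuous_const.intervalIntegrable _ _) fun t _ => ?_
      refine (p3e_FL_le X p0 t hX).trans ?_
      have h2 : Real.log (60 * X) ≤ 2 * L := by linarith
      calc Real.log (60 * X) * (1 + Real.log (60 * X)) ≤ (2 * L) * (2 * L) := by gcongr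
        _ = 4 * L ^ 2 := by ring
    rw [intervalIntegral.integral_const, smul_eq_mul] at h1
    have h2 : L ^ 2 ≤ L ^ (8 : ℝ) := by
      rw [← Real.rpow_natCast L 2]
      exact Real.rpow_le_rpow_of_exponent_le (by linarith) (by norm_num)
    linarith
  have hsplit : ∑ p ∈ PC Q, ∫ t in (-1 : ℝ)..1, ‖FL X p t‖ =
      (∑ p ∈ (PC Q).filter (fun p => p ≠ p0), ∫ t in (-1 : ℝ)..1, ‖FL X p t‖) +
        ∫ t in (-1 : ℝ)..1, ‖FL X p0 t‖ := by
    rw [← Finset.sum_filter_add_sum_filter_not (PC Q) (fun p => p ≠ p0)]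
    congr 1
    have h1 : (PC Q).filter (fun p => ¬ p ≠ p0) = {p0} := by
      ext p
      rw [mem_filter, mem_singleton, not_not]
      constructor
      · exact fun h => h.2
      · intro h
        exact ⟨h ▸ p0_mem hQ1, h⟩
    rw [h1, Finset.sum_singleton]
  rw [hsplit]
  have hsum := Finset.sum_le_sum key
  rw [Finset.sum_add_distrib, Finset.sum_const, nsmul_eq_mul] at hsum
  have h98 : L ^ (9 : ℝ) = L * L ^ (8 : ℝ) := by
    rw [show (9 : ℝ) = 8 + 1 by norm_num, Real.rpow_add_one hL0.ne']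
    ring
  rw [h98]
  have h8 : 0 ≤ L ^ (8 : ℝ) := by positivity
  have h9 : (C + 20) * L ^ (8 : ℝ) ≤ L * L ^ (8 : ℝ) := mul_le_mul_of_nonneg_right hLC h8
  linarith

end Pool.Agent.Lib.H13C
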