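import Pool.Agent.Lib.H13C.Defs
import Pool.Agent.Lib.H68T.LONG
import Pool.Agent.Lib.H68T.PNTE
import Pool.Agent.Lib.H68T.MAIN

/-!
# Chunk P4: the weight `wX` and the sums `SX`
-/

open Finset MeasureTheory

namespace Pool.Agent.Lib.H13C

open Pool.Agent.Lib.H68T

/-- `gk y = ∫_{-1/4}^{1/4} cos (t y) dt`, `|t y| ≤ 1` for `|y| ≤ 4`, `cos ≥ cos 1 ≥ 1/2` there. -/
theorem gk_bounds (y : ℝ) : gk y ≤ 1 / 2 ∧ (|y| ≤ 4 → 1 / 4 ≤ gk y) := by
  unfold gk
  have hc : Continuous (fun t : ℝ => Real.cos (t * y)) := by fun_prop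
  constructor
  · have h1 : ∫ t in (-(1 / 4 : ℝ))..(1 / 4), Real.cos (t * y) ≤
        ∫ t in (-(1 / 4 : ℝ))..(1 / 4), (1 : ℝ) := by
      refine intervalIntegral.integral_mono_on (by norm_num) (hc.intervalIntegrable _ _)
        (continuous_const.intervalIntegrable _ _) fun t _ => Real.cos_le_one _
    rw [intervalIntegral.integral_const, smul_eq_mul] at h1
    linarith
  · intro hy
    have h1 : ∫ t in (-(1 / 4 : ℝ))..(1 / 4), (1 / 2 : ℝ) ≤
        ∫ t in (-(1 / 4 : ℝ))..(1 / 4), Real.cos (t * y) := by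
      refine intervalIntegral.integral_mono_on (by norm_num)
        (continuous_const.intervalIntegrable _ _) (hc.intervalIntegrable _ _) fun t ht => ?_
      have h2 : |t| ≤ 1 / 4 := abs_le.2 ⟨ht.1, ht.2⟩
      have h3 : |t * y| ≤ 1 := by
        rw [abs_mul]
        calc |t| * |y| ≤ 1 / 4 * 4 := mul_le_mul h2 hy (abs_nonneg _) (by norm_num)
          _ = 1 := by norm_num
      have h4 : (t * y) ^ 2 ≤ 1 := by
        rw [← sq_abs]
        exact pow_le_one₀ (abs_nonneg _) h3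
      have := Real.one_sub_sq_div_two_le_cos (x := t * y)
      linarith
    rw [intervalIntegral.integral_const, smul_eq_mul] at h1
    linarith

theorem p4_w_ne {y : ℝ} (h : w y ≠ 0) : -2 < y ∧ y < 4 := by
  unfold w at h
  have h1 := left_ne_zero_of_mul h
  have h2 := right_ne_zero_of_mul h
  constructor
  · by_contra h3
    exact h1 (Real.smoothTransition.zero_of_nonpos (by linarith))
  · by_contra h3
    exact h2 (Real.smoothTransition.zero_of_nonpos (by linarith))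

theorem p4_w_one {y : ℝ} (h1 : -1 ≤ y) (h2 : y ≤ 3) : w y = 1 := by
  unfold w
  rw [Real.smoothTransition.one_of_one_le (by linarith),
    Real.smoothTransition.one_of_one_le (by linarith), one_mul]

/-- `v X n ∈ [0, 1]` vanishes unless `-2 < log (n/X) < 4`; `X/n ≤ e² ≤ 8` there, and
`n ≤ e⁴ X ≤ 60 X`, `n ≥ X/e² ≥ X/8`. For `X ≤ n ≤ eX`: `v = 1`, `X/n ≥ 1/e`, `gk ≥ 1/4`. -/
theorem wX_bounds (X n : ℕ) (hX : 1 ≤ X) (hn : 1 ≤ n) :
    0 ≤ wX X n ∧ wX X n ≤ 4 ∧ (wX X n ≠ 0 → X ≤ 8 * n ∧ n ≤ 60 * X) ∧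
      (X ≤ n → (n : ℝ) ≤ Real.exp 1 * X → 1 / 12 ≤ wX X n) := by
  have hX0 : (0 : ℝ) < X := by exact_mod_cast hX
  have hn0 : (0 : ℝ) < n := by exact_mod_cast hn
  have hv0 : 0 ≤ v X n := LONG_w_nonneg _
  have hv1 : v X n ≤ 1 := LONG_w_le_one _
  obtain ⟨hg1, hg2⟩ := gk_bounds (Real.log ((n : ℝ) / X))
  have he1 : Real.exp 1 < 2.7182818286 := Real.exp_one_lt_d9
  have he2 : (2.7182818283 : ℝ) < Real.exp 1 := Real.exp_one_gt_d9
  have hexp2 : Real.exp 2 ≤ 8 := by
    have h2 : Real.exp 2 = Real.exp 1 ^ 2 := by rw [← Real.exp_nat_mul]; norm_num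
    rw [h2]
    calc Real.exp 1 ^ 2 ≤ 2.72 ^ 2 := pow_le_pow_left₀ (Real.exp_pos _).le (by linarith) 2
      _ ≤ 8 := by norm_num
  have hexp4 : Real.exp 4 ≤ 60 := by
    have h2 : Real.exp 4 = Real.exp 1 ^ 4 := by rw [← Real.exp_nat_mul]; norm_num
    rw [h2]
    calc Real.exp 1 ^ 4 ≤ 2.72 ^ 4 := pow_le_pow_left₀ (Real.exp_pos _).le (by linarith) 4
      _ ≤ 60 := by norm_num
  have hq0 : 0 < (n : ℝ) / X := by positivity
  -- bounds where the weight does not vanish
  have hne : v X n ≠ 0 → (X : ℝ) / n ≤ 8 ∧ (n : ℝ) / X ≤ 60 ∧ |Real.log ((n : ℝ) / X)| ≤ 4 := by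
    intro h
    obtain ⟨h1, h2⟩ := p4_w_ne h
    refine ⟨?_, ?_, abs_le.2 ⟨by linarith, h2.le⟩⟩
    · have h3 : Real.exp (-2) < (n : ℝ) / X := (Real.lt_log_iff_exp_lt hq0).1 h1
      rw [Real.exp_neg] at h3
      have h4 : (X : ℝ) / n < Real.exp 2 := by
        rw [← inv_div]
        rw [inv_lt_comm₀ hq0 (Real.exp_pos 2)]
        exact h3
      linarith
    · have h3 : (n : ℝ) / X < Real.exp 4 := (Real.log_lt_iff_lt_exp hq0).1 h2
      linarith
  have hXn : 0 < (X : ℝ) / n := by positivity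
  refine ⟨?_, ?_, ?_, ?_⟩
  · unfold wX
    rcases eq_or_ne (v X n) 0 with h | h
    · rw [h]
      simp
    · have := hg2 (hne h).2.2
      have h3 : 0 ≤ gk (Real.log ((n : ℝ) / X)) := by linarith
      positivity
  · unfold wX
    rcases eq_or_ne (v X n) 0 with h | h
    · rw [h]
      norm_num
    · obtain ⟨h1, h2, h3⟩ := hne h
      have h4 := hg2 h3
      have h5 : 0 ≤ gk (Real.log ((n : ℝ) / X)) := by linarith
      calc (X : ℝ) / n * v X n * gk (Real.log ((n : ℝ) / X)) ≤ 8 * 1 * (1 / 2) := by gcongr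
        _ = 4 := by norm_num
  · intro h
    have hv : v X n ≠ 0 := by
      intro h0
      apply h
      unfold wX
      rw [h0]
      simp
    obtain ⟨h1, h2, -⟩ := hne hv
    constructor
    · rw [div_le_iff₀ hn0] at h1
      exact_mod_cast h1
    · rw [div_le_iff₀ hX0] at h2
      exact_mod_cast h2
  · intro h1 h2
    have h3 : 0 ≤ Real.log ((n : ℝ) / X) := by
      apply Real.log_nonneg
      rw [le_div_iff₀ hX0, one_mul]
      exact_mod_cast h1
    have h4 : Real.log ((n : ℝ) / X) ≤ 1 := by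
      rw [Real.log_le_iff_le_exp hq0, div_le_iff₀ hX0]
      exact h2
    have hv : v X n = 1 := p4_w_one (by linarith) (by linarith)
    have h5 := hg2 (abs_le.2 ⟨by linarith, by linarith⟩)
    have h6 : (1 : ℝ) / 3 ≤ X / n := by
      rw [div_le_div_iff₀ (by norm_num) hn0]
      have : Real.exp 1 * X ≤ 3 * X := by
        apply mul_le_mul_of_nonneg_right _ hX0.le
        linarith
      linarith
    unfold wX
    rw [hv]
    calc (1 : ℝ) / 12 = 1 / 3 * 1 * (1 / 4) := by norm_num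
      _ ≤ (X : ℝ) / n * 1 * gk (Real.log ((n : ℝ) / X)) := by gcongr

/-- the sine part vanishes -/
theorem p4_gk (y : ℝ) : ∫ t in (-(1 / 4 : ℝ))..(1 / 4), Complex.exp (-(t * y * Complex.I)) =
    (gk y : ℂ) := by
  have h1 : ∀ t : ℝ, Complex.exp (-(t * y * Complex.I)) =
      ((Real.cos (t * y) : ℝ) : ℂ) - ((Real.sin (t * y) : ℝ) : ℂ) * Complex.I := by
    intro t
    have e : -((t : ℂ) * y * Complex.I) = ((-(t * y) : ℝ) : ℂ) * Complex.I := by
      push_cast
      ring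
    rw [e, Complex.exp_mul_I, ← Complex.ofReal_cos, ← Complex.ofReal_sin, Real.cos_neg, Real.sin_neg]
    push_cast
    ring
  simp only [h1]
  have hc1 : Continuous (fun t : ℝ => ((Real.cos (t * y) : ℝ) : ℂ)) := by fun_prop
  have hc2 : Continuous (fun t : ℝ => ((Real.sin (t * y) : ℝ) : ℂ) * Complex.I) := by fun_prop
  rw [intervalIntegral.integral_sub (hc1.intervalIntegrable _ _) (hc2.intervalIntegrable _ _),
    intervalIntegral.integral_mul_const]
  have h2 : ∫ t in (-(1 / 4 : ℝ))..(1 / 4), ((Real.sin (t * y) : ℝ) : ℂ) = 0 := by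
    have h3 := intervalIntegral.integral_comp_neg (fun t : ℝ => ((Real.sin (t * y) : ℝ) : ℂ))
      (a := -(1 / 4 : ℝ)) (b := 1 / 4)
    rw [neg_neg] at h3
    have h4 : ∫ t in (-(1 / 4 : ℝ))..(1 / 4), ((Real.sin (-t * y) : ℝ) : ℂ) =
        -∫ t in (-(1 / 4 : ℝ))..(1 / 4), ((Real.sin (t * y) : ℝ) : ℂ) := by
      rw [← intervalIntegral.integral_neg]
      congr 1
      ext t
      rw [neg_mul, Real.sin_neg]
      push_cast
      rfl
    rw [h4] at h3
    have h5 : (2 : ℂ) * ∫ t in (-(1 / 4 : ℝ))..(1 / 4), ((Real.sin (t * y) : ℝ) : ℂ) = 0 := by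
      linear_combination -h3
    simpa using h5
  rw [h2, zero_mul, sub_zero, gk, intervalIntegral.integral_ofReal]

/-- the Mellin identity -/
theorem p4_id (X : ℕ) (hX : 1 ≤ X) (p : Σ r : ℕ, DirichletCharacter ℂ r) :
    ∑ m ∈ Icc 1 (60 * X), (ArithmeticFunction.vonMangoldt m : ℂ) * (wX X m : ℂ) *
      p.2 (m : ZMod p.1) =
    X * ∫ t in (-(1 / 4 : ℝ))..(1 / 4), Complex.exp (t * Real.log X * Complex.I) * FL X p t := by
  have hX0 : (0 : ℝ) < X := by exact_mod_cast hX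
  have h1 : ∀ t : ℝ, Complex.exp (t * Real.log X * Complex.I) * FL X p t =
      ∑ m ∈ Icc 1 (60 * X), ((ArithmeticFunction.vonMangoldt m : ℂ) * p.2 (m : ZMod p.1) *
        (v X m : ℂ) * (m : ℂ)⁻¹) * Complex.exp (-(t * Real.log ((m : ℝ) / X) * Complex.I)) := by
    intro t
    unfold FL FF
    rw [Finset.mul_sum]
    refine Finset.sum_congr rfl fun m hm => ?_
    have hm1 : 1 ≤ m := (mem_Icc.mp hm).1
    have hm0 : (0 : ℝ) < m := by exact_mod_cast hm1
    have hmc : (m : ℂ) ≠ 0 := by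
      exact_mod_cast hm0.ne'
    have e1 : (m : ℂ) ^ (-(1 + t * Complex.I)) =
        (m : ℂ)⁻¹ * Complex.exp (-(t * Real.log m * Complex.I)) := by
      rw [neg_add, Complex.cpow_add _ _ hmc, Complex.cpow_neg_one,
        Complex.cpow_def_of_ne_zero hmc, ← Complex.natCast_log]
      congr 2
      ring
    have e2 : Complex.exp (-(t * Real.log ((m : ℝ) / X) * Complex.I)) =
        Complex.exp (t * Real.log X * Complex.I) * Complex.exp (-(t * Real.log m * Complex.I)) := by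
      rw [← Complex.exp_add, Real.log_div hm0.ne' hX0.ne']
      congr 1
      push_cast
      ring
    rw [e1, e2]
    ring
  simp only [h1]
  rw [intervalIntegral.integral_finsetSum]
  · rw [Finset.mul_sum]
    refine Finset.sum_congr rfl fun m hm => ?_
    rw [intervalIntegral.integral_const_mul, p4_gk]
    unfold wX
    push_cast
    ring
  · intro m _
    refine Continuous.intervalIntegrable ?_ _ _
    fun_prop

/-- `∑_{m ≤ 60X} Λ(m) wX(m) ψ(m) = X ∫_{-1/4}^{1/4} X^(it) FL X ψ t dt` (`FL` is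
`∑ Λ(m) ψ(m) v(m) m^(-1-it)`, `∫ (m/X)^(-it) dt = gk (log (m/X))` because the sine part is odd), so its
norm is at most `X ∫_{-1}^{1} ‖FL‖`. The difference to `SX X ψ` consists of proper prime powers
`m ≤ 60 X` (for primes `Λ(m) = log m`; the primes with `wX = 0` contribute `0`): at most
`4 log (60X) · √(60X) · log (60X)/log 2 ≤ 4000 √X (1 + log X)²`. -/
theorem SX_le (X : ℕ) (hX : 1 ≤ X) (p : Σ r : ℕ, DirichletCharacter ℂ r) (hp : 1 ≤ p.1) :
    ‖SX X p‖ ≤ X * (∫ t in (-1 : ℝ)..1, ‖FL X p t‖) + 4000 * Real.sqrt X * (1 + Real.log X) ^ 2 := by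
  have hX0 : (0 : ℝ) < X := by exact_mod_cast hX
  have hX1 : (1 : ℝ) ≤ X := by exact_mod_cast hX
  have hcont : Continuous (fun t => ‖FL X p t‖) := (main_cont_FF X _).norm
  -- the difference
  have h1 : (∑ m ∈ Icc 1 (60 * X), (ArithmeticFunction.vonMangoldt m : ℂ) * (wX X m : ℂ) *
      p.2 (m : ZMod p.1)) = SX X p + ∑ m ∈ (Icc 1 (60 * X)).filter (fun m => ¬ m.Prime),
        (ArithmeticFunction.vonMangoldt m : ℂ) * (wX X m : ℂ) * p.2 (m : ZMod p.1) := by
    rw [← Finset.sum_filter_add_sum_filter_not (Icc 1 (60 * X)) Nat.Prime]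
    congr 1
    unfold SX
    have h2 : prX X = ((Icc 1 (60 * X)).filter Nat.Prime).filter (fun n => wX X n ≠ 0) := by
      unfold prX
      rw [Finset.filter_filter]
    rw [h2, Finset.sum_filter_of_ne (p := fun n => wX X n ≠ 0)]
    · refine Finset.sum_congr rfl fun m hm => ?_
      rw [ArithmeticFunction.vonMangoldt_apply_prime (mem_filter.1 hm).2]
      push_cast
      ring
    · intro m _ h3 h4
      apply h3
      rw [h4]
      simp
  have h2 : ‖∑ m ∈ (Icc 1 (60 * X)).filter (fun m => ¬ m.Prime),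
        (ArithmeticFunction.vonMangoldt m : ℂ) * (wX X m : ℂ) * p.2 (m : ZMod p.1)‖ ≤
      4 * (Chebyshev.psi (60 * X) - Chebyshev.theta (60 * X)) := by
    rw [Chebyshev.psi_sub_theta_eq_sum_not_prime, Finset.mul_sum]
    have h3 : ⌊(60 * X : ℝ)⌋₊ = 60 * X := by
      have : (60 * X : ℝ) = ((60 * X : ℕ) : ℝ) := by push_cast; ring
      rw [this, Nat.floor_natCast]
    rw [h3]
    have h4 : (Ioc 0 (60 * X)).filter (fun m => ¬ m.Prime) =
        (Icc 1 (60 * X)).filter (fun m => ¬ m.Prime) := by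
      ext m
      simp only [mem_filter, mem_Ioc, mem_Icc]
      rfl
    rw [h4]
    refine (norm_sum_le _ _).trans (Finset.sum_le_sum fun m hm => ?_)
    have hm1 := (mem_Icc.1 (mem_filter.1 hm).1).1
    obtain ⟨w1, w2, -, -⟩ := wX_bounds X m hX hm1
    rw [norm_mul, norm_mul, Complex.norm_real, Complex.norm_real,
      Real.norm_of_nonneg ArithmeticFunction.vonMangoldt_nonneg, Real.norm_of_nonneg w1]
    have e2 : ‖p.2 (m : ZMod p.1)‖ ≤ 1 := DirichletCharacter.norm_le_one _ _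
    have e3 : 0 ≤ ArithmeticFunction.vonMangoldt m := ArithmeticFunction.vonMangoldt_nonneg
    calc ArithmeticFunction.vonMangoldt m * wX X m * ‖p.2 (m : ZMod p.1)‖
        ≤ ArithmeticFunction.vonMangoldt m * 4 * 1 := by gcongr
      _ = 4 * ArithmeticFunction.vonMangoldt m := by ring
  have hlog0 : 0 ≤ Real.log X := Real.log_nonneg hX1
  have h3 : Chebyshev.psi (60 * X) - Chebyshev.theta (60 * X) ≤
      1000 * Real.sqrt X * (1 + Real.log X) ^ 2 := by
    refine (Chebyshev.psi_sub_theta_le (by linarith)).trans ?_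
    rw [Real.sqrt_mul (by norm_num), Real.log_mul (by norm_num) hX0.ne']
    have h60 : Real.log 60 ≤ 5 := by
      rw [Real.log_le_iff_le_exp (by norm_num)]
      have h1 : (2.7 : ℝ) ≤ Real.exp 1 := by
        have := Real.exp_one_gt_d9
        linarith
      have h2 : Real.exp 5 = Real.exp 1 ^ 5 := by rw [← Real.exp_nat_mul]; norm_num
      rw [h2]
      have h3 : (2.7 : ℝ) ^ 5 ≤ Real.exp 1 ^ 5 := pow_le_pow_left₀ (by norm_num) h1 5
      have h4 : (60 : ℝ) ≤ 2.7 ^ 5 := by norm_num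
      linarith
    have hs : Real.sqrt 60 ≤ 8 := by
      rw [Real.sqrt_le_left (by norm_num)]
      norm_num
    have hsX : 0 ≤ Real.sqrt X := Real.sqrt_nonneg _
    calc 2 * (Real.sqrt 60 * Real.sqrt X) * (Real.log 60 + Real.log X)
        ≤ 2 * (8 * Real.sqrt X) * (5 + Real.log X) := by gcongr
      _ ≤ 2 * (8 * Real.sqrt X) * (5 * (1 + Real.log X) ^ 2) := by
          gcongr
          nlinarith
      _ ≤ 1000 * Real.sqrt X * (1 + Real.log X) ^ 2 := by
          have : 0 ≤ Real.sqrt X * (1 + Real.log X) ^ 2 := by positivity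
          nlinarith
  have h4 : ‖∑ m ∈ Icc 1 (60 * X), (ArithmeticFunction.vonMangoldt m : ℂ) * (wX X m : ℂ) *
      p.2 (m : ZMod p.1)‖ ≤ X * (∫ t in (-1 : ℝ)..1, ‖FL X p t‖) := by
    rw [p4_id X hX p, norm_mul, Complex.norm_natCast]
    refine mul_le_mul_of_nonneg_left ?_ hX0.le
    refine (intervalIntegral.norm_integral_le_integral_norm (by norm_num)).trans ?_
    have h5 : ∀ t : ℝ, ‖Complex.exp (t * Real.log X * Complex.I) * FL X p t‖ = ‖FL X p t‖ := by
      intro t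
      rw [norm_mul]
      have : (t : ℂ) * Real.log X * Complex.I = ((t * Real.log X : ℝ) : ℂ) * Complex.I := by
        push_cast
        ring
      rw [this, Complex.norm_exp_ofReal_mul_I, one_mul]
    simp only [h5]
    exact intervalIntegral.integral_mono_interval (by norm_num) (by norm_num) (by norm_num)
      (Filter.Eventually.of_forall fun t => norm_nonneg _) (hcont.intervalIntegrable _ _)
  have h5 : SX X p = (∑ m ∈ Icc 1 (60 * X), (ArithmeticFunction.vonMangoldt m : ℂ) *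
      (wX X m : ℂ) * p.2 (m : ZMod p.1)) - ∑ m ∈ (Icc 1 (60 * X)).filter (fun m => ¬ m.Prime),
        (ArithmeticFunction.vonMangoldt m : ℂ) * (wX X m : ℂ) * p.2 (m : ZMod p.1) := by
    rw [h1]
    ring
  rw [h5]
  refine (norm_sub_le _ _).trans ?_
  linarith

theorem p4_theta : ∃ X₀ : ℕ, ∀ X : ℕ, X₀ ≤ X →
    (2 / 5 : ℝ) * X ≤ Chebyshev.theta (Real.exp 1 * X) - Chebyshev.theta X := by
  have h1 := (isLittleO_log_rpow_atTop (show (0 : ℝ) < 1 / 2 by norm_num)).bound
    (show (0 : ℝ) < 1 / 1000 by norm_num)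
  obtain ⟨y₀, hy₀⟩ := Filter.eventually_atTop.1 h1
  obtain ⟨N, hN⟩ := exists_nat_ge y₀
  refine ⟨N + 8, fun X hX => ?_⟩
  have hX8 : (8 : ℝ) ≤ X := by
    have : (N : ℝ) + 8 ≤ X := by exact_mod_cast hX
    have : (0 : ℝ) ≤ N := Nat.cast_nonneg _
    linarith
  have hXN : y₀ ≤ X := by
    have : (N : ℝ) + 8 ≤ X := by exact_mod_cast hX
    linarith
  have he1 : Real.exp 1 < 2.7182818286 := Real.exp_one_lt_d9
  have he2 : (2.7182818283 : ℝ) < Real.exp 1 := Real.exp_one_gt_d9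
  set y : ℝ := Real.exp 1 * X with hy
  have hyX1 : 2.7182818283 * X ≤ y := mul_le_mul_of_nonneg_right he2.le (by linarith)
  have hyX2 : y ≤ 2.7182818286 * X := mul_le_mul_of_nonneg_right he1.le (by linarith)
  have hyy : y₀ ≤ y := by linarith
  have hy1 : 1 ≤ y := by linarith
  have hlogb : ∀ z : ℝ, y ≤ z → Real.log z ≤ 1 / 1000 * Real.sqrt z := by
    intro z hz
    have h2 := hy₀ z (by linarith)
    rw [Real.norm_of_nonneg (Real.log_nonneg (by linarith)),
      Real.norm_of_nonneg (Real.rpow_nonneg (by linarith) _), ← Real.sqrt_eq_rpow] at h2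
    exact h2
  have hsq : ∀ z : ℝ, 1 ≤ z → Real.sqrt z ≤ z := by
    intro z hz
    rw [Real.sqrt_le_left (by linarith)]
    nlinarith
  have h2 := hlogb y le_rfl
  have h3 : Real.log (y + 2) ≤ 1 / 1000 * (y + 2) :=
    (hlogb (y + 2) (by linarith)).trans
      (mul_le_mul_of_nonneg_left (hsq _ (by linarith)) (by norm_num))
  have h4 : 2 * Real.sqrt y * Real.log y ≤ 2 / 1000 * y := by
    have h5 : 0 ≤ Real.sqrt y := Real.sqrt_nonneg _
    calc 2 * Real.sqrt y * Real.log y ≤ 2 * Real.sqrt y * (1 / 1000 * Real.sqrt y) := by gcongr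
      _ = 2 / 1000 * (Real.sqrt y * Real.sqrt y) := by ring
      _ = 2 / 1000 * y := by rw [Real.mul_self_sqrt (by linarith)]
  have h5 := Chebyshev.theta_ge' hy1
  have h6 := Chebyshev.theta_le_log4_mul_x (x := (X : ℝ)) (by linarith)
  have hl1 : Real.log 2 < 0.6931471808 := Real.log_two_lt_d9
  have hl2 : 0.6931471803 < Real.log 2 := Real.log_two_gt_d9
  have hl4 : Real.log 4 = 2 * Real.log 2 := by
    rw [show (4 : ℝ) = 2 ^ 2 by norm_num, Real.log_pow]
    norm_num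
  rw [hl4] at h6
  have h7 : 2 * Real.log 2 * X ≤ 2 * 0.6931471808 * X := by gcongr
  have h8 : (y - 1) * 0.6931471803 ≤ (y - 1) * Real.log 2 := by
    apply mul_le_mul_of_nonneg_left hl2.le
    linarith
  linarith

/-- `SX X p0 = ∑_{n ∈ prX X} log n wX(n) ≥ (1/12) ∑_{X ≤ n ≤ eX prime} log n`, and the last sum is
`≥ (e - 1) X - o(X) ≥ X`: Chebyshev function, e.g. `H68T.pnt_error` (for `u = eX` and `u = X`, some `Q`
with `Reg K Q X`, e.g. `Q = ⌈(log X)^K⌉`) minus prime powers; or Mathlib's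
`Chebyshev.theta` bounds `θ(x) ≤ log 4 · x` and `θ(x) ≥ log 2 · x - o(x)`:
`θ(eX) - θ(X) ≥ (e log 2 - log 4 - o(1)) X ≥ 0.49 X`, then `≥ X/25`. -/
theorem SX_p0_ge : ∃ X₀ : ℕ, ∀ X : ℕ, X₀ ≤ X → (X : ℝ) / 30 ≤ (SX X p0).re := by
  obtain ⟨X₀, hX₀⟩ := p4_theta
  refine ⟨X₀ + 1, fun X hX => ?_⟩
  have h1 := hX₀ X (by omega)
  have hX1 : 1 ≤ X := by omega
  have hXr : (1 : ℝ) ≤ X := by exact_mod_cast hX1
  have he1 : Real.exp 1 < 2.7182818286 := Real.exp_one_lt_d9
  have he2 : (2.7182818283 : ℝ) < Real.exp 1 := Real.exp_one_gt_d9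
  have hre : (SX X p0).re = ∑ n ∈ prX X, Real.log n * wX X n := by
    unfold SX
    rw [Complex.re_sum]
    refine Finset.sum_congr rfl fun n _ => ?_
    have : p0.2 (n : ZMod p0.1) = 1 := by
      show (1 : DirichletCharacter ℂ 1) (n : ZMod 1) = 1
      rw [MulChar.one_apply]
      exact isUnit_of_subsingleton _
    rw [this, mul_one, Complex.ofReal_re]
  have hmono : X ≤ ⌊Real.exp 1 * X⌋₊ := by
    apply Nat.le_floor
    nlinarith
  have h2 : Chebyshev.theta (Real.exp 1 * X) - Chebyshev.theta X =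
      ∑ n ∈ (Ioc X ⌊Real.exp 1 * X⌋₊).filter Nat.Prime, Real.log n := by
    unfold Chebyshev.theta
    rw [Nat.floor_natCast, sub_eq_iff_eq_add]
    have h3 : (Ioc 0 ⌊Real.exp 1 * X⌋₊).filter Nat.Prime =
        (Ioc X ⌊Real.exp 1 * X⌋₊).filter Nat.Prime ∪ (Ioc 0 X).filter Nat.Prime := by
      ext n
      simp only [mem_union, mem_filter, mem_Ioc]
      constructor
      · rintro ⟨⟨a, b⟩, c⟩
        rcases le_or_gt n X with h | h
        · exact Or.inr ⟨⟨a, h⟩, c⟩
        · exact Or.inl ⟨⟨h, b⟩, c⟩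
      · rintro (⟨⟨a, b⟩, c⟩ | ⟨⟨a, b⟩, c⟩)
        · exact ⟨⟨by omega, b⟩, c⟩
        · exact ⟨⟨a, b.trans hmono⟩, c⟩
    rw [h3, Finset.sum_union]
    rw [Finset.disjoint_left]
    intro n hn hn'
    simp only [mem_filter, mem_Ioc] at hn hn'
    omega
  rw [h2] at h1
  have h4 : (1 / 12 : ℝ) * ∑ n ∈ (Ioc X ⌊Real.exp 1 * X⌋₊).filter Nat.Prime, Real.log n ≤
      ∑ n ∈ prX X, Real.log n * wX X n := by
    rw [Finset.mul_sum]
    have h5 : ∀ n ∈ (Ioc X ⌊Real.exp 1 * X⌋₊).filter Nat.Prime,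
        (1 / 12 : ℝ) ≤ wX X n ∧ n ≤ 60 * X := by
      intro n hn
      obtain ⟨hn1, hn2⟩ := mem_filter.1 hn
      obtain ⟨hn3, hn4⟩ := mem_Ioc.1 hn1
      have h6 : (n : ℝ) ≤ Real.exp 1 * X :=
        (Nat.le_floor_iff (by positivity)).1 hn4
      refine ⟨(wX_bounds X n hX1 (by omega)).2.2.2 hn3.le h6, ?_⟩
      have h7 : (n : ℝ) ≤ 60 * X := by nlinarith
      exact_mod_cast h7
    have h6 : (Ioc X ⌊Real.exp 1 * X⌋₊).filter Nat.Prime ⊆ prX X := by
      intro n hn
      obtain ⟨h7, h8⟩ := h5 n hn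
      obtain ⟨hn1, hn2⟩ := mem_filter.1 hn
      obtain ⟨hn3, hn4⟩ := mem_Ioc.1 hn1
      unfold prX
      rw [mem_filter, mem_Icc]
      refine ⟨⟨by omega, h8⟩, hn2, ?_⟩
      intro h9
      rw [h9] at h7
      norm_num at h7
    refine le_trans ?_ (Finset.sum_le_sum_of_subset_of_nonneg h6 ?_)
    · refine Finset.sum_le_sum fun n hn => ?_
      have hlog : 0 ≤ Real.log n := Real.log_natCast_nonneg n
      rw [mul_comm]
      exact mul_le_mul_of_nonneg_left (h5 n hn).1 hlog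
    · intro n hn _
      unfold prX at hn
      rw [mem_filter, mem_Icc] at hn
      exact mul_nonneg (Real.log_natCast_nonneg n) (wX_bounds X n hX1 hn.1.1).1
  rw [hre]
  refine le_trans ?_ h4
  linarith

end Pool.Agent.Lib.H13C
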