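import Pool.Agent.Lib.H13C.P1
import Pool.Agent.Lib.H13C.P2c
import Pool.Agent.Lib.H13C.P3e
import Pool.Agent.Lib.H13C.P4

/-!
# Chunk P5: the input from prime number theory
-/

open Finset MeasureTheory

namespace Pool.Agent.Lib.H13C

open Pool.Agent.Lib.H68T

/-- the contribution of the prime powers -/
theorem p5_err (Q X : ℕ) (B L : ℝ) (hX : 1 ≤ X) (hQ : 1 ≤ Q) (hL : L = Real.log X) (hL1 : 1 ≤ L)
    (hB : 0 ≤ B) (h1 : 16000 * L ^ (2 : ℝ) * B ≤ Q) (h2 : (Q : ℝ) ^ (3 : ℝ) ≤ (X : ℝ) ^ (1 / 2 : ℝ)) :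
    (Q : ℝ) ^ 2 * (4000 * Real.sqrt X * (1 + Real.log X) ^ 2) * B ≤ X := by
  rw [← hL]
  have hX0 : (0 : ℝ) ≤ X := Nat.cast_nonneg _
  have hQ0 : (0 : ℝ) ≤ Q := Nat.cast_nonneg _
  rw [Real.rpow_two] at h1
  have h3 : (Q : ℝ) ^ 3 ≤ Real.sqrt X := by
    rw [Real.sqrt_eq_rpow, ← Real.rpow_natCast]
    exact_mod_cast h2
  have hs : 0 ≤ Real.sqrt X := Real.sqrt_nonneg _
  calc (Q : ℝ) ^ 2 * (4000 * Real.sqrt X * (1 + L) ^ 2) * B
      ≤ (Q : ℝ) ^ 2 * (4000 * Real.sqrt X * (2 * L) ^ 2) * B := by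
        gcongr
        linarith
    _ = (Q : ℝ) ^ 2 * (16000 * L ^ 2 * B) * Real.sqrt X := by ring
    _ ≤ (Q : ℝ) ^ 2 * Q * Real.sqrt X := by gcongr
    _ = (Q : ℝ) ^ 3 * Real.sqrt X := by ring
    _ ≤ Real.sqrt X * Real.sqrt X := by gcongr
    _ = X := Real.mul_self_sqrt hX0

/-- the sum of `SX` over a set of characters -/
theorem p5_sum (Q X : ℕ) (hX : 1 ≤ X) (F : Finset (Σ r : ℕ, DirichletCharacter ℂ r))
    (hF : F ⊆ PC Q) :
    ∑ p ∈ F, ‖SX X p‖ ≤ X * (∑ p ∈ F, ∫ t in (-1 : ℝ)..1, ‖FL X p t‖) +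
      (Q : ℝ) ^ 2 * (4000 * Real.sqrt X * (1 + Real.log X) ^ 2) := by
  have h1 : ∑ p ∈ F, ‖SX X p‖ ≤ ∑ p ∈ F, (X * (∫ t in (-1 : ℝ)..1, ‖FL X p t‖) +
      4000 * Real.sqrt X * (1 + Real.log X) ^ 2) :=
    Finset.sum_le_sum fun p hp => SX_le X hX p (mem_PC.1 (hF hp)).1
  refine h1.trans ?_
  rw [Finset.sum_add_distrib, ← Finset.mul_sum, Finset.sum_const, nsmul_eq_mul]
  have h2 : (F.card : ℝ) ≤ (Q : ℝ) ^ 2 := by
    have h3 := (card_le_card hF).trans (card_PC_le Q)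
    exact_mod_cast h3
  have h3 : 0 ≤ 4000 * Real.sqrt X * (1 + Real.log X) ^ 2 := by positivity
  have := mul_le_mul_of_nonneg_right h2 h3
  linarith

open scoped Classical in
/-- `page_prime`, `L1_off` (with exponent `A + 1`; `[-1, 1] ⊆ [-Q^7, Q^7]`), `L1_large`, `SX_le`,
`SX_p0_ge`, `card_PC_le` (the error `4000 √X (1 + log X)²` is multiplied by at most `Q² ≤ X^(1/10)`,
`R² ≤ X^(1/10)`). -/
theorem prime_input : ∃ C₁ : ℝ, 0 < C₁ ∧ ∀ A : ℝ, ∃ K : ℝ, 1 ≤ K ∧ ∀ Q X : ℕ, Reg K Q X →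
    (X : ℝ) / 30 ≤ (SX X p0).re ∧ ∃ p₁ : ℕ, p₁.Prime ∧
    ∑ p ∈ (PC Q).filter (fun p => p ≠ p0 ∧ ¬ p₁ ∣ p.1), ‖SX X p‖ ≤
      X * (Real.log X) ^ (-A) ∧
    ∀ R : ℕ, RegP K R X → ∑ p ∈ PC R, ‖SX X p‖ ≤ X * (Real.log X) ^ C₁ := by
  obtain ⟨C, KL, hC, hKL⟩ := L1_large
  obtain ⟨X₀, hX₀⟩ := SX_p0_ge
  obtain ⟨c, KP, hc, hKP⟩ := page_prime
  refine ⟨C + 1, by linarith, fun A => ?_⟩
  obtain ⟨KO, hKO⟩ := L1_off c hc (A + 1)
  obtain ⟨K4, hK41, hK4⟩ := reg_log_le (16000 * 2) (2 + A) 1 one_pos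
  obtain ⟨K5, hK51, hK5⟩ := reg_pow_le 1 3 (1 / 2) (by norm_num)
  obtain ⟨K6, hK61, hK6⟩ := H5C.regp_log_le 16000 2 1 one_pos
  obtain ⟨K7, hK71, hK7⟩ := H5C.regp_pow_le 1 3 (1 / 2) (by norm_num)
  have a1 : 0 ≤ |KL| := abs_nonneg _
  have a2 : 0 ≤ |KP| := abs_nonneg _
  have a3 : 0 ≤ |KO| := abs_nonneg _
  have a4 : (0 : ℝ) ≤ X₀ := Nat.cast_nonneg _
  have b1 : KL ≤ |KL| := le_abs_self _
  have b2 : KP ≤ |KP| := le_abs_self _
  have b3 : KO ≤ |KO| := le_abs_self _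
  set K : ℝ := |KL| + |KP| + |KO| + X₀ + K4 + K5 + K6 + K7 + 20 with hK
  have hKpos : 0 ≤ K := by linarith
  refine ⟨K, by linarith, fun Q X hreg => ?_⟩
  have rO : Reg KO Q X := hreg.mono hKpos (by linarith)
  have r4 : Reg K4 Q X := hreg.mono hKpos (by linarith)
  have r5 : Reg K5 Q X := hreg.mono hKpos (by linarith)
  have hX : 1 ≤ X := hreg.X_pos (by linarith)
  have hXK : K ≤ (X : ℝ) := hreg.X_ge (by linarith)
  have hQK : K ≤ (Q : ℝ) := hreg.Q_ge (by linarith)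
  have hQ0 : (0 : ℝ) < Q := by linarith
  have hQ1 : 1 ≤ Q := by exact_mod_cast hQ0
  set L : ℝ := Real.log X with hL
  have hLK : K ≤ L := by
    have h1 := hreg.logX_ge (by linarith)
    have := Real.add_one_le_exp K
    linarith
  have hL20 : 20 ≤ L := by linarith
  have hL0 : 0 < L := by linarith
  have hXr : (0 : ℝ) < X := by exact_mod_cast hX
  refine ⟨?_, ?_⟩
  · apply hX₀
    have : (X₀ : ℝ) ≤ X := by linarith
    exact_mod_cast this
  · obtain ⟨p₁, hp₁, hgood⟩ := hKP Q (by linarith)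
    refine ⟨p₁, hp₁, ?_, ?_⟩
    · set F := (PC Q).filter (fun p => p ≠ p0 ∧ ¬ p₁ ∣ p.1) with hF
      refine (p5_sum Q X hX F (Finset.filter_subset _ _)).trans ?_
      have h1 : ∑ p ∈ F, ∫ t in (-1 : ℝ)..1, ‖FL X p t‖ ≤ L ^ (-(A + 1)) := by
        refine le_trans ?_ (hKO Q X p₁ rO hgood)
        refine Finset.sum_le_sum fun p _ => ?_
        have h1Q7 : (1 : ℝ) ≤ (Q : ℝ) ^ 7 := one_le_pow₀ (by linarith)
        have hcL : Continuous (fun t => ‖FL X p t‖) := (main_cont_FF X _).norm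
        exact intervalIntegral.integral_mono_interval (by linarith) (by norm_num) h1Q7
          (Filter.Eventually.of_forall fun t => norm_nonneg _) (hcL.intervalIntegrable _ _)
      have h2 : (Q : ℝ) ^ 2 * (4000 * Real.sqrt X * (1 + Real.log X) ^ 2) * (2 * L ^ A) ≤ X := by
        refine p5_err Q X (2 * L ^ A) L hX hQ1 hL (by linarith) (by positivity) ?_ ?_
        · have h3 := hK4 Q X r4
          rw [Real.rpow_one, Real.rpow_add hL0] at h3
          calc 16000 * L ^ (2 : ℝ) * (2 * L ^ A) = 16000 * 2 * (L ^ (2 : ℝ) * L ^ A) := by ring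
            _ ≤ Q := h3
        · have h3 := hK5 Q X r5
          rwa [one_mul] at h3
      have hA0 : 0 < L ^ A := Real.rpow_pos_of_pos hL0 A
      have h3 : (Q : ℝ) ^ 2 * (4000 * Real.sqrt X * (1 + Real.log X) ^ 2) ≤ X * (L ^ (-A) / 2) := by
        rw [Real.rpow_neg hL0.le]
        rw [← le_div_iff₀ (by positivity)] at h2
        refine h2.trans (le_of_eq ?_)
        field_simp
      have h4 : (X : ℝ) * ∑ p ∈ F, ∫ t in (-1 : ℝ)..1, ‖FL X p t‖ ≤ X * (L ^ (-A) / 2) := by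
        refine mul_le_mul_of_nonneg_left (h1.trans ?_) hXr.le
        rw [neg_add, Real.rpow_add hL0, Real.rpow_neg_one, div_eq_mul_inv]
        refine mul_le_mul_of_nonneg_left ?_ (by positivity)
        exact inv_anti₀ (by norm_num) (by linarith)
      linarith
    · intro R hR
      have rL : RegP KL R X := H5C.RegP.mono hR hKpos (by linarith)
      have r6 : H5C.RegP K6 R X := H5C.RegP.mono hR hKpos (by linarith)
      have r7 : H5C.RegP K7 R X := H5C.RegP.mono hR hKpos (by linarith)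
      have hR1 : 1 ≤ R := r6.Q_pos hK61
      refine (p5_sum R X hX (PC R) (Finset.Subset.refl _)).trans ?_
      have h1 := hKL R X rL
      have h2 : (R : ℝ) ^ 2 * (4000 * Real.sqrt X * (1 + Real.log X) ^ 2) * 1 ≤ X := by
        refine p5_err R X 1 L hX hR1 hL (by linarith) (by norm_num) ?_ ?_
        · have h3 := hK6 R X r6
          rw [Real.rpow_one] at h3
          rw [mul_one]
          exact h3
        · have h3 := hK7 R X r7
          rwa [one_mul] at h3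
      rw [mul_one] at h2
      have h3 : 1 ≤ L ^ C := Real.one_le_rpow (by linarith) hC.le
      have h4 : X * L ^ (C + 1) = X * (L ^ C * L) := by
        rw [Real.rpow_add_one hL0.ne']
      rw [h4]
      have h5 : (X : ℝ) * ∑ p ∈ PC R, ∫ t in (-1 : ℝ)..1, ‖FL X p t‖ ≤ X * L ^ C :=
        mul_le_mul_of_nonneg_left h1 hXr.le
      have h6 : (X : ℝ) * L ^ C + X ≤ X * (L ^ C * L) := by
        have h7 : L ^ C + 1 ≤ L ^ C * L := by nlinarith
        calc (X : ℝ) * L ^ C + X = X * (L ^ C + 1) := by ring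
          _ ≤ X * (L ^ C * L) := mul_le_mul_of_nonneg_left h7 hXr.le
      linarith

end Pool.Agent.Lib.H13C
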