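import Pool.Agent.Lib.H13C.Defs
import Pool.Agent.Lib.H56G.Wgt2
import Pool.Agent.Lib.H56G.Coef3
import Pool.Agent.Lib.H56G.Cher2

/-!
# Chunk S0: the weights `bt = θ bw`
-/

open Finset

namespace Pool.Agent.Lib.H13C

open Pool.Agent.Lib.H68T Pool.Agent.Lib.H56G

variable {ι J : Type} [Fintype ι] [DecidableEq ι] [Fintype J] [DecidableEq J]

theorem bt_nonneg (s : Sys ι J) (z θ : ℝ) (hθ0 : 0 ≤ θ) (A : Finset ι) : 0 ≤ bt s z θ A := by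
  sorry

theorem bt_le_one (s : Sys ι J) (z θ : ℝ) (hθ0 : 0 ≤ θ) (hθ1 : θ ≤ 1) (hS : 0 < SS s z)
    (A : Finset ι) : bt s z θ A ≤ 1 := by
  sorry

theorem bt_rho (s : Sys ι J) (z θ : ℝ) (A : Finset ι) (h : bt s z θ A ≠ 0) : s.rho A ≤ z := by
  sorry

theorem bt_sum (s : Sys ι J) (z θ : ℝ) (hS : 0 < SS s z) :
    ∑ A ∈ univ.filter (fun A : Finset ι => A ≠ ∅), bt s z θ A = θ := by
  sorry

/-- `bw_through` -/
theorem bt_through (s : Sys ι J) (W : ℕ) (hW : 1 ≤ W) (hpr : ∀ i, W < s.pr i) (z θ : ℝ)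
    (hθ0 : 0 ≤ θ) (hθ1 : θ ≤ 1) (hS : 0 < SS s z) (i : ι) :
    ∑ A ∈ univ.filter (fun A : Finset ι => i ∈ A), bt s z θ A ≤ (2 / SS s z + 1) / W := by
  sorry

/-- `∑_{A ≠ ∅} bt² φ = θ²/S² ∑ 1/(φ log² ρ) ≤ (1/(S log p)) (1/S) ∑ 1/(φ log ρ) ≤ 1`, because
`log ρ(A) ≥ log p_i ≥ 1/S` for any `i ∈ A`. -/
theorem bt_nu (s : Sys ι J) (z θ : ℝ) (hθ0 : 0 ≤ θ) (hθ1 : θ ≤ 1) (hS : 0 < SS s z)
    (hSp : ∀ i, 1 ≤ SS s z * Real.log (s.pr i)) :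
    ∑ A ∈ univ.filter (fun A : Finset ι => A ≠ ∅), vv s (bt s z θ) A ≤ 1 := by
  sorry

/-- `bw_moment` (the factor `θ²` is at most `1`). -/
theorem bt_moment (s : Sys ι J) (z θ : ℝ) (hθ0 : 0 ≤ θ) (hθ1 : θ ≤ 1) (hz : 1 < z)
    (hS : 0 < SS s z) :
    ∑ A ∈ univ.filter (fun A : Finset ι => A ≠ ∅),
        vv s (bt s z θ) A * ((s.rho A) ^ (1 / Real.log z) - 1) ≤ 2 / (SS s z * Real.log z) := by
  sorry

/-- `cher` with `z²` in place of `z` and `σ = 1/log z`, `bt_moment`. -/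
theorem bt_tail (s : Sys ι J) (z θ D ε : ℝ) (hθ0 : 0 ≤ θ) (hθ1 : θ ≤ 1) (hz : 1 < z)
    (hD : 0 < D) (hS : 0 < SS s z)
    (hε : (z ^ 2 / D) ^ (1 / Real.log z) *
      (1 + 2 / (SS s z * Real.log z)) ^ (Fintype.card J) ≤ ε) :
    ∑ κ ∈ univ.filter (fun κ : ι → Option J => D < s.r κ * z ^ 2), wt s (bt s z θ) κ
      ≤ ε * ZZ s (bt s z θ) := by
  sorry

end Pool.Agent.Lib.H13C
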