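import Pool.Agent.Lib.H13C.S0

/-!
# Chunk S1: the restricted coefficients `cp`
-/

open Finset

namespace Pool.Agent.Lib.H13C

open Pool.Agent.Lib.H68T Pool.Agent.Lib.H56G

variable {ι J : Type} [Fintype ι] [DecidableEq ι] [Fintype J] [DecidableEq J]

/-- `cp_cc`: `cp = cc (1 - ∑ bt)`, the sum being between `0` and `θ`. -/
theorem cp_bt_bounds (s : Sys ι J) (z θ D : ℝ) (hθ0 : 0 ≤ θ) (hθ1 : θ ≤ 1) (hS : 0 < SS s z)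
    (j0 : J) (κ : ι → Option J) (hκ : κ ∈ noJ j0) :
    (1 - θ) * |cc s (bt s z θ) D κ| ≤ |cp j0 (cc s (bt s z θ) D) κ| ∧
      |cp j0 (cc s (bt s z θ) D) κ| ≤ |cc s (bt s z θ) D κ| := by
  sorry

/-- The bracket `β(κ) = 1 - ∑_{A ⊆ free κ, A ≠ ∅, r κ ρ(A) ≤ D} bt A` is in `[1 - θ, 1]`, and if
`r κ z ≤ D` it is at most `1 - θ + τ`, because the missing `A` meet `supp κ`. -/
theorem cp_bt_bracket (s : Sys ι J) (z θ D τ : ℝ) (hθ0 : 0 ≤ θ) (hθ1 : θ ≤ 1) (hS : 0 < SS s z)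
    (κ : ι → Option J)
    (hτ : ∑ i ∈ supp κ, ∑ A ∈ univ.filter (fun A : Finset ι => i ∈ A), bt s z θ A ≤ τ) :
    1 - θ ≤ 1 - ∑ A ∈ (free κ).powerset.filter (fun A => A ≠ ∅ ∧ s.r κ * s.rho A ≤ D),
        bt s z θ A ∧
    1 - ∑ A ∈ (free κ).powerset.filter (fun A => A ≠ ∅ ∧ s.r κ * s.rho A ≤ D),
        bt s z θ A ≤ 1 ∧
    (s.r κ * z ≤ D →
      1 - ∑ A ∈ (free κ).powerset.filter (fun A => A ≠ ∅ ∧ s.r κ * s.rho A ≤ D),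
        bt s z θ A ≤ 1 - θ + τ) := by
  sorry

/-- `ZZ = ∑_{κ ∈ noJ j0} wt κ ∑_{A ⊆ free κ} vv A ≤ (1 + 1) ∑_{noJ j0} wt` (`sum_off`, `bt_nu`). -/
theorem ZZ_le_noJ (s : Sys ι J) (z θ : ℝ) (hθ0 : 0 ≤ θ) (hθ1 : θ ≤ 1) (hS : 0 < SS s z)
    (hSp : ∀ i, 1 ≤ SS s z * Real.log (s.pr i)) (j0 : J) :
    ZZ s (bt s z θ) ≤ 2 * ∑ κ ∈ noJ j0, wt s (bt s z θ) κ := by
  sorry

/-- Main norm: `∑_{noJ j0} cp² ph ≥ (1-θ)² ∑_{noJ j0, r κ ≤ D} wt ≥ (1-θ)² (ZZ/2 - ZZ/4)`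
(`cp_bt_bounds`, `cc_sq_mul_ph`, `ZZ_le_noJ`, `bt_tail`; `D < r κ` implies `D < r κ z²`). -/
theorem cp_norm_ge (s : Sys ι J) (z θ D : ℝ) (hθ0 : 0 ≤ θ) (hθ1 : θ ≤ 1) (hz : 1 < z)
    (hD : 0 < D) (hS : 0 < SS s z) (hSp : ∀ i, 1 ≤ SS s z * Real.log (s.pr i))
    (hε : (z ^ 2 / D) ^ (1 / Real.log z) *
      (1 + 2 / (SS s z * Real.log z)) ^ (Fintype.card J) ≤ 1 / 4) (j0 : J) :
    (1 - θ) ^ 2 / 4 * ZZ s (bt s z θ) ≤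
      ∑ κ ∈ noJ j0, (cp j0 (cc s (bt s z θ) D) κ) ^ 2 * s.ph κ := by
  sorry

end Pool.Agent.Lib.H13C
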