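import Pool.Agent.Lib.H13C.S1
import Pool.Agent.Lib.H56G.Maj3
import Pool.Agent.Lib.H56G.Vvge

/-!
# Chunk S2: the coefficients for two forms
-/

open Finset

namespace Pool.Agent.Lib.H13C

open Pool.Agent.Lib.H68T Pool.Agent.Lib.H56G

variable {ι J : Type} [Fintype ι] [DecidableEq ι] [Fintype J] [DecidableEq J]

/-- Notation: `V = ∑_{ρ(A) ≤ D2} 1/φ(A)` over all sets of primes, `(1 - ϵ) V ≤ VV D2 κ ≤ V` for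
`r κ ≤ D` (the upper bound is trivial). For `κ = ins κ' j0 A`, `κ'` using neither `j0` nor `j1`,
`A ⊆ free κ'`, `ρ(A) ≤ D2`: since `ins (ins κ' j0 A) j1 B = ins (ins κ' j1 B) j0 A`,
`cp j1 (cmaj c D2 j0) κ = (1/φ(A)) ∑_{B ⊆ free κ} cp j0 c (ins κ' j1 B)/VV(ins κ' j1 B)`
(`cmaj_ins`), and `cp j0 c (ins κ' j1 B) = cc (ins κ' j1 B) β(ins κ' j1 B)` (`cp_cc`),
`cc (ins κ' j1 B) = gam B cc κ' [r κ' ρ(B) ≤ D]` (`coef2_cc_ins`). Hence it equals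
`(cc κ'/φ(A)) (x_∅ - ∑_{∅ ≠ B ⊆ free κ, r κ' ρ(B) ≤ D} bt B x_B)`, `x_B = β/VV`,
`0 ≤ x_B ≤ 1/((1-ϵ) V) ≤ 2/V`, so the bracket has absolute value at most `2/V`. -/
theorem pair_coef_triv (s : Sys ι J) (z θ D D2 V ϵ : ℝ) (hθ0 : 0 ≤ θ) (hθ1 : θ ≤ 1)
    (hS : 0 < SS s z) (hV0 : 0 < V) (hϵ0 : 0 ≤ ϵ) (hϵ : ϵ ≤ 1 / 2)
    (hV : ∀ κ : ι → Option J, s.r κ ≤ D → (1 - ϵ) * V ≤ s.VV D2 κ ∧ s.VV D2 κ ≤ V)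
    (j0 j1 : J) (hj : j0 ≠ j1) (κ : ι → Option J) (h0 : κ ∈ noJ j0) (h1 : κ ∈ noJ j1)
    (A : Finset ι) (hA : A ⊆ free κ) (hAD : s.rho A ≤ D2) :
    |cp j1 (cmaj s (cc s (bt s z θ) D) D2 j0) (ins κ j0 A)| ≤
      |cc s (bt s z θ) D κ| / s.phi A * (2 / V) := by
  sorry

/-- If moreover `r κ' z² ≤ D`: for `bt B ≠ 0` one has `r κ' ρ(B) z ≤ D`, so
`x_B ∈ [(1-θ)/V, (1-θ+τ)/((1-ϵ)V)]` (`cp_bt_bracket` for `ins κ' j1 B`), and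
`θ - τ ≤ ∑_{∅ ≠ B ⊆ free κ} bt B ≤ θ`. With `δ = 1 - θ`, `1/(1-ϵ) ≤ 1 + 2ϵ`:
upper bound `(δ+τ)(1+2ϵ) - δ (θ - τ) ≤ δ² + 4 (τ + ϵ)`,
lower bound `δ - θ (δ+τ)(1+2ϵ) ≥ - 4 (τ + ϵ)`, both divided by `V`. (`τ ≤ 1/4`, `ϵ ≤ 1/4`.) -/
theorem pair_coef (s : Sys ι J) (z θ D D2 V ϵ τ : ℝ) (hθ0 : 0 ≤ θ) (hθ1 : θ ≤ 1)
    (hz : 1 ≤ z) (hS : 0 < SS s z) (hV0 : 0 < V) (hϵ0 : 0 ≤ ϵ) (hϵ : ϵ ≤ 1 / 4) (hτ0 : 0 ≤ τ)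
    (hτ1 : τ ≤ 1 / 4)
    (hV : ∀ κ : ι → Option J, s.r κ ≤ D → (1 - ϵ) * V ≤ s.VV D2 κ ∧ s.VV D2 κ ≤ V)
    (hτ : ∀ κ : ι → Option J, s.r κ ≤ D * D2 →
      ∑ i ∈ supp κ, ∑ A ∈ univ.filter (fun A : Finset ι => i ∈ A), bt s z θ A ≤ τ)
    (hD2 : 1 ≤ D2)
    (j0 j1 : J) (hj : j0 ≠ j1) (κ : ι → Option J) (h0 : κ ∈ noJ j0) (h1 : κ ∈ noJ j1)
    (A : Finset ι) (hA : A ⊆ free κ) (hAD : s.rho A ≤ D2) (hκ : s.r κ * z ^ 2 ≤ D) :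
    |cp j1 (cmaj s (cc s (bt s z θ) D) D2 j0) (ins κ j0 A)| ≤
      |cc s (bt s z θ) D κ| / s.phi A * (((1 - θ) ^ 2 + 4 * (τ + ϵ)) / V) := by
  sorry

end Pool.Agent.Lib.H13C
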