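import Pool.Agent.Lib.H13C.S2

/-!
# Chunk S3: the norm for two forms
-/

open Finset

namespace Pool.Agent.Lib.H13C

open Pool.Agent.Lib.H68T Pool.Agent.Lib.H56G

variable {ι J : Type} [Fintype ι] [DecidableEq ι] [Fintype J] [DecidableEq J]

/-- Write the `κ ∈ noJ j1` as `ins κ' j0 A`, `κ' ∈ noJ j0` (`sum_off`; then `κ' ∈ noJ j1`). The term
is `0` unless `ρ(A) ≤ D2` (`cmaj_ins`; for `ρ(A) > D2` all `c1 (ins (ins κ' j1 B) j0 A)` vanish).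
`ph (ins κ' j0 A) = ph κ' φ(A)`, so by `pair_coef` and `pair_coef_triv` the sum is at most
`∑_{κ'} cc² ph(κ') ∑_{A ⊆ free κ', ρ(A) ≤ D2} (1/φ(A)) e²/V²` with `e = (1-θ)² + 4(τ+ϵ)` if
`r κ' z² ≤ D` and `e = 2` otherwise; the sum over `A` is `VV D2 κ' ≤ V` (for `r κ' ≤ D`);
`cc² ph = wt` (`cc_sq_mul_ph`) or `0`. -/
theorem pair_norm (s : Sys ι J) (z θ D D2 V ϵ τ : ℝ) (hθ0 : 0 ≤ θ) (hθ1 : θ ≤ 1)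
    (hz : 1 ≤ z) (hS : 0 < SS s z) (hV0 : 0 < V) (hϵ0 : 0 ≤ ϵ) (hϵ : ϵ ≤ 1 / 4) (hτ0 : 0 ≤ τ)
    (hτ1 : τ ≤ 1 / 4)
    (hV : ∀ κ : ι → Option J, s.r κ ≤ D → (1 - ϵ) * V ≤ s.VV D2 κ ∧ s.VV D2 κ ≤ V)
    (hτ : ∀ κ : ι → Option J, s.r κ ≤ D * D2 →
      ∑ i ∈ supp κ, ∑ A ∈ univ.filter (fun A : Finset ι => i ∈ A), bt s z θ A ≤ τ)
    (hD2 : 1 ≤ D2) (j0 j1 : J) (hj : j0 ≠ j1) :
    ∑ κ ∈ noJ j1, (cp j1 (cmaj s (cc s (bt s z θ) D) D2 j0) κ) ^ 2 * s.ph κ ≤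
      1 / V * (((1 - θ) ^ 2 + 4 * (τ + ϵ)) ^ 2 * ZZ s (bt s z θ) +
        4 * ∑ κ ∈ univ.filter (fun κ : ι → Option J => D < s.r κ * z ^ 2),
          wt s (bt s z θ) κ) := by
  sorry

end Pool.Agent.Lib.H13C
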