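import Pool.Agent.Lib.H13C.S3
import Pool.Agent.Lib.H56G.Schur2

/-!
# Chunk S4: sums over `t`
-/

open Finset

namespace Pool.Agent.Lib.H13C

open Pool.Agent.Lib.H68T Pool.Agent.Lib.H56G

variable {ι J : Type} [Fintype ι] [DecidableEq ι] [Fintype J] [DecidableEq J]

/-- `|cc| ≤ 1`, `∑ |cc| ≤ 3 D²` (`card_le`), `sum_sq_le`, `ps ≤ 2 ph` on the support,
`cc² ph ≤ wt`. -/
theorem total_le (s : Sys ι J) (W : ℕ) (hW : 1 ≤ W) (hpr : ∀ i, W < s.pr i)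
    (hJ : Fintype.card J ≤ W) (z θ D : ℝ) (hθ0 : 0 ≤ θ) (hθ1 : θ ≤ 1) (hS : 0 < SS s z)
    (hD : 1 ≤ D) (hK : ∀ κ : ι → Option J, s.r κ ≤ D → s.ps κ ≤ 2 * s.ph κ) (Y : ℕ) :
    ∑ t ∈ Icc 1 Y, (∑ κ, cc s (bt s z θ) D κ * s.U κ t) ^ 2 ≤
      2 * Y * ZZ s (bt s z θ) + 18 * D ^ 8 := by
  sorry

/-- Two forms. On the set of the `t` such that no prime divides the form `j0` the sum equals
`∑ c1 U`, `c1 = cmaj s cc D2 j0` (`sum_cmaj_eq`, with `V0 = 1`), so the left side is at most the sum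
of `(∑ c1 U)²` over the `t` such that no prime divides the form `j1`; apply `maj` to `c1`, level
`D D2` (`maj3_r_le`), with the `V0 = V/2` of `hV'`; `|cp j1 c1| ≤ 1` by `pair_coef_triv`
(`V ≥ 2`) and `pair_norm`. -/
theorem pair_le (s : Sys ι J) (W : ℕ) (hW : 1 ≤ W) (hpr : ∀ i, W < s.pr i)
    (hJ : Fintype.card J ≤ W) (z θ D D2 V ϵ τ : ℝ) (hθ0 : 0 ≤ θ) (hθ1 : θ ≤ 1)
    (hz : 1 ≤ z) (hS : 0 < SS s z) (hV2 : 2 ≤ V) (hϵ0 : 0 ≤ ϵ) (hϵ : ϵ ≤ 1 / 4) (hτ0 : 0 ≤ τ)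
    (hτ1 : τ ≤ 1 / 4) (hD : 1 ≤ D) (hD2 : 1 ≤ D2)
    (hV : ∀ κ : ι → Option J, s.r κ ≤ D * D2 → (1 - ϵ) * V ≤ s.VV D2 κ ∧ s.VV D2 κ ≤ V)
    (hτ : ∀ κ : ι → Option J, s.r κ ≤ D * D2 →
      ∑ i ∈ supp κ, ∑ A ∈ univ.filter (fun A : Finset ι => i ∈ A), bt s z θ A ≤ τ)
    (hK : ∀ κ : ι → Option J, s.r κ ≤ D * D2 * D2 → s.ps κ ≤ 2 * s.ph κ)
    (j0 j1 : J) (hj : j0 ≠ j1) (Y : ℕ) :
    ∑ t ∈ (Icc 1 Y).filter (fun t => (∀ i, ¬ s.pr i ∣ s.b j0 + s.M * t) ∧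
        ∀ i, ¬ s.pr i ∣ s.b j1 + s.M * t), (∑ κ, cc s (bt s z θ) D κ * s.U κ t) ^ 2 ≤
      Y * (2 / (V / 2)) * (1 / V * (((1 - θ) ^ 2 + 4 * (τ + ϵ)) ^ 2 * ZZ s (bt s z θ) +
        4 * ∑ κ ∈ univ.filter (fun κ : ι → Option J => D < s.r κ * z ^ 2),
          wt s (bt s z θ) κ)) + 18 * (D * D2 * D2) ^ 8 := by
  sorry

end Pool.Agent.Lib.H13C
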